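import Mathlib
import Pool.Agent.J4H20.CI.Act
import Pool.Agent.TH607.Fx.Sub
import Pool.Agent.H826R2.Wein.Stmt

/-! Project CI (helper20, MP_e3ee0c_gt): closed Reeb orbits for contact forms with commuting first
integrals which are weakly nondegenerate at the points of lowest rank.

`VA E P m` = smooth action of the vector group `ℝ^m`, `A.X c x` = its generator at `x` in the
direction `c`, `A.XL x` = the linear map `c ↦ A.X c x`; `VS β m` = such an action preserving the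
one-form `β`, `A.H c x = β x (A.X c x)` = the contact Hamiltonian. See `CI/Act.lean` for the lemmas
(`integral`, `smooth_X`, `push_X`, `X_act`, `act_eq_of_X_eq_zero`, `X_eq_zero_of_fam`, `dH` (Cartan:
`dH_c(u) = -dβ(X_c, u)`), `H_act`, `X_eq_of_crit`, ...). -/

open scoped Topology ContDiff Manifold
open Set Metric Pool.Agent.Helper186 Pool.Agent.H826R2.Wein

noncomputable section

namespace Pool.Agent.J4H20.CI

set_option linter.unusedSectionVars false

universe u v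

section defs

variable {E : Type u} [NormedAddCommGroup E] [NormedSpace ℝ E] [FiniteDimensional ℝ E]
  {P : Type v} [TopologicalSpace P] [ChartedSpace E P] [IsManifold 𝓘(ℝ, E) ∞ P] {m : ℕ}

/-- the dimension of the orbit of `x` -/
def VA.od (A : VA E P m) (x : P) : ℕ := Module.finrank ℝ (LinearMap.range (A.XL x))

/-- the orthogonal complement (dot product) of the isotropy algebra of `x` -/
def VA.perp (A : VA E P m) (x : P) : Submodule ℝ (Fin m → ℝ) where
  carrier := {s | ∀ c, A.X c x = 0 → ∑ i, c i * s i = 0}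
  add_mem' := by
    intro a b ha hb c hc
    simp only [Pi.add_apply, mul_add, Finset.sum_add_distrib, ha c hc, hb c hc, add_zero]
  zero_mem' := by
    intro c _
    simp
  smul_mem' := by
    intro r a ha c hc
    have h := ha c hc
    simp only [Pi.smul_apply, smul_eq_mul]
    calc ∑ i, c i * (r * a i) = r * ∑ i, c i * a i := by
          rw [Finset.mul_sum]; exact Finset.sum_congr rfl fun i _ => by ring
      _ = 0 := by rw [h, mul_zero]

/-- the period lattice of the orbit of `x` (for compact orbits) -/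
def VA.Lat (A : VA E P m) (x : P) : Set (Fin m → ℝ) := {s | s ∈ A.perp x ∧ A.act s x = x}

/-- `μ` is a smooth invariant map; the kernel of its derivative is tangent to the orbits -/
structure VA.Mom (A : VA E P m) (μ : P → (Fin m → ℝ)) : Prop where
  smooth : ContMDiff 𝓘(ℝ, E) 𝓘(ℝ, Fin m → ℝ) ∞ μ
  inv : ∀ θ x, μ (A.act θ x) = μ x
  ker : ∀ (x : P) (u : E), mfderiv 𝓘(ℝ, E) 𝓘(ℝ, Fin m → ℝ) μ x u = 0 → ∃ c, (A.X c x : E) = u

/-- the second derivative of a function at `x` in the preferred chart at `x` (the Hessian if `x` is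
a critical point) -/
def hess (g : P → ℝ) (x : P) (u v : E) : ℝ :=
  fderiv ℝ (fderiv ℝ (g ∘ (extChartAt 𝓘(ℝ, E) x).symm)) (extChartAt 𝓘(ℝ, E) x x) u v

/-- weak nondegeneracy at `x` -/
def VS.WN {β : (x : P) → TangentSpace 𝓘(ℝ, E) x →L[ℝ] ℝ} (A : VS β m) (x : P) : Prop :=
  ∃ c, A.X c x = 0 ∧ ∀ u : E, (∀ c', dForm 𝓘(ℝ, E) (A.H c') x u = 0) →
    (∀ v : E, (∀ c', dForm 𝓘(ℝ, E) (A.H c') x v = 0) → hess (A.H c) x u v = 0) →
    ∃ c', (A.X c' x : E) = u

/-- `L` is a locally trivial smooth family of lattices of rank `d` in subspaces of `ℝ^m` -/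
def LocBases (E : Type u) [NormedAddCommGroup E] [NormedSpace ℝ E]
    {N : Type v} [TopologicalSpace N] [ChartedSpace E N]
    (d : ℕ) {m : ℕ} (L : N → Set (Fin m → ℝ)) : Prop :=
  ∀ y₀ : N, ∃ (U : Set N) (b : N → Fin d → Fin m → ℝ), IsOpen U ∧ y₀ ∈ U ∧
    ContMDiffOn 𝓘(ℝ, E) 𝓘(ℝ, Fin d → Fin m → ℝ) ∞ b U ∧
    ∀ y ∈ U, LinearIndependent ℝ (b y) ∧
      ∀ s, s ∈ L y ↔ ∃ n : Fin d → ℤ, s = ∑ i, (n i : ℝ) • b y i

/-- all the pairs of a point `y` and an ordered basis of the lattice `L y` -/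
def Bases (d : ℕ) {N : Type v} {m : ℕ} (L : N → Set (Fin m → ℝ)) :
    Set (N × (Fin d → Fin m → ℝ)) :=
  {p | LinearIndependent ℝ p.2 ∧ ∀ s, s ∈ L p.1 ↔ ∃ n : Fin d → ℤ, s = ∑ i, (n i : ℝ) • p.2 i}

end defs

/-- **(NRM)** Let `x₀` be a point with orbit dimension `d` at which the action is weakly
nondegenerate. Then near `x₀` the set `N = {orbit dimension ≤ d}` is a submanifold of dimension
`2d - 1`; vectors tangent to `N` on which all `dH_c` vanish are tangent to the orbit.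

Proof. At every point `x`: `X_c(x) = 0 ↔ H_c(x) = 0 ∧ dH_c(x) = 0` (nondegeneracy of `β`, `VS.dH`);
hence `rank (c ↦ dH_c(x)) = od x - 1` (the kernel is `{c : X_c ∈ ℝ R} = ker XL + ℝ κ₀`), see
`CI/Lin.lean`. Let `c_1..c_{d-1}` with `dH_{c_j}(x₀)` independent; `𝔪 = span(κ₀, c_j)`, `X : 𝔪 → T`
is injective at `x₀` with image the orbit tangent space `O`; `T = ⋂ ker dH_{c_j}(x₀) ⊇ O`, `V` a
complement of `O` in `T`, `z_j ∈ E` dual to `dH_{c_i}` (complement of `T`). The map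
`Λ(s,t,w) = A(s)(chart⁻¹(p + Σ t_j z_j + w))`, `s ∈ 𝔪 ≅ ℝ^d`, `t ∈ ℝ^{d-1}`, `w ∈ V`, is a local
diffeomorphism at `0`. In these coordinates the invariant functions `H_{c_j}` and `g = H_c` (`c` from
`WN`, `g` has a critical point at `x₀`) do not depend on `s`: `H_{c_j} = h_j(t,w)`,
`∂h_j/∂t_i(0) = δ_ij`, `∂h_j/∂w(0) = 0`. So `(s,h,w)` are also coordinates, `g = G(h,w)`; let
`F = ∂_w G(h,w) ∈ V*`. Its derivative in `w` at `0` is the Hessian of `g` on `V`, nondegenerate by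
`WN` (the Hessian vanishes on `O × E` because `g` is invariant: `dg(X_c) = 0`, differentiate at the
critical point). So `φ = (s, h, F)` is a chart near `x₀` with values in `𝔪 × ℝ^{d-1} × V* ≅ E`.
Claim: near `x₀`, `N = {F = 0}`. (⊂) the orbit dimension is `≥ d` near `x₀`; if it is `d` then
`rank (dH_c)_c = d - 1`, so `dg ∈ span dH_{c_j} = span dh_j`, that is `F = 0`. (⊃) `C = {F = 0} =
{dg ∈ span dH_{c_j}}` near `x₀` is locally invariant (`g, H_{c_j}` are invariant), so for `y ∈ C` and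
every `c`: `DF(X_c(y)) = 0` (the curve `A(τc)y` stays in `C` for small `τ`), `Dh(X_c(y)) = 0`, so
`Dφ(X_c(y)) = (Ds(X_c(y)),0,0) = Dφ(X_{s'}(y))` with `s' = Ds(X_c(y)) ∈ 𝔪`; so `X_c(y) = X_{s'}(y)`
and the orbit dimension is `≤ d`. The last property: tangent to `N` means `DF = 0`, all `dH_c = 0`
means `Dh = 0`, so the vector is `X_{s'}`. `φ(A(s')y) = φ(y) + (s',0,0)` for small `s'`. -/
def S_NRM : Prop :=
  ∀ (E : Type u) [NormedAddCommGroup E] [NormedSpace ℝ E] [FiniteDimensional ℝ E]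
    (M : Type v) [TopologicalSpace M] [ChartedSpace E M] [IsManifold 𝓘(ℝ, E) ∞ M] [T2Space M]
    (β : (x : M) → TangentSpace 𝓘(ℝ, E) x →L[ℝ] ℝ) (_ : IsContact β)
    (m : ℕ) (A : VS β m) (κ₀ : Fin m → ℝ) (_ : IsReeb β (A.X κ₀))
    (d : ℕ) (x₀ : M) (_ : A.od x₀ = d) (_ : A.WN x₀),
    ∃ s : TH607.SliceAt (E := E) (Fin (2 * d - 1) → ℝ) {x | A.od x ≤ d} x₀,
      ∀ u : E, s.j (s.p (mfderiv 𝓘(ℝ, E) 𝓘(ℝ, E) s.φ x₀ u)) =
          (mfderiv 𝓘(ℝ, E) 𝓘(ℝ, E) s.φ x₀ u : E) →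
        (∀ c, dForm 𝓘(ℝ, E) (A.H c) x₀ u = 0) → ∃ c, (A.X c x₀ : E) = u

/-- **(CC)** Slice charts of a connected component. Proof: restrict `φ` to `φ⁻¹ (ball (φ a) r)` with
`ball ⊂ φ.target`; the part of `N` in this open set is the image of the convex set `{e ∈ ball : j (p e)
= e}`, so it is connected and contained in the component of `a`; `connectedComponentIn N x₀ =
connectedComponentIn N a`. (Compare `TS.exists_sliceAt` in `Pool/Agent/TH607/Fx/Comp.lean`.) -/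
def S_CC : Prop :=
  ∀ (E : Type u) [NormedAddCommGroup E] [NormedSpace ℝ E] [FiniteDimensional ℝ E]
    (M : Type v) [TopologicalSpace M] [ChartedSpace E M] [IsManifold 𝓘(ℝ, E) ∞ M]
    (k : ℕ) (N : Set M) (x₀ a : M) (_ : a ∈ connectedComponentIn N x₀)
    (s : TH607.SliceAt (E := E) (Fin k → ℝ) N a),
    ∃ s' : TH607.SliceAt (E := E) (Fin k → ℝ) (connectedComponentIn N x₀) a,
      s'.j = s.j ∧ s'.p = s.p ∧ (s'.φ : M → E) = s.φ

/-- **(NC)** The contact submanifold of lowest rank.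

Proof (`C` with the charts `S.charted`, `ι` = inclusion, `γ = ι^*β`, `B` = restricted action; see
`Pool/Agent/TH607/Fx/{Sub,Red,Cont,Cont2,Quot,Act2}.lean` for all the techniques: `Slices.isManifold`,
`contMDiff_val`, `contMDiff_of_val`, `injective_mfderiv_val`, `extDer_pull`, `contact_image`,
`exists_reeb_image`). `B.X c` is `ι`-related to `A.X c`, `B.H c = A.H c ∘ ι`. A vector `Dι(u)` satisfies
`j (p (Dφ Dι u)) = Dφ Dι u` (differentiate `j (p (φ x)) = φ x` along `C`). Contact: let `u ∈ T_xC`,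
`γ(u) = 0`, `dγ(u,v) = 0` for `v ∈ ker γ`, hence for all `v ∈ T_xC` (add multiples of the Reeb field,
which is tangent to `C`). With `v = X_c`: `dH_c(u) = 0` for all `c`, so `Dι u = X_c(x)` for one `c`
(hypothesis `hT`), `H_c(x) = γ(u) = 0`, and `dH_c = 0` on `T_xC`. The restriction to `T_xC` of
`span {dH_{c'}(x)}` (of dimension `d - 1`) is injective, because its image has dimension
`dim T_xC - dim ⋂ker = 2d - 1 - d` (`⋂ ker dH_{c'} ∩ T_xC` is the orbit tangent space, of dimension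
`d`). So `dH_c(x) = 0` on `T_xM`, `X_c(x) = 0`, `u = 0`. -/
def S_NC : Prop :=
  ∀ (E : Type u) [NormedAddCommGroup E] [NormedSpace ℝ E] [FiniteDimensional ℝ E]
    (M : Type v) [TopologicalSpace M] [ChartedSpace E M] [IsManifold 𝓘(ℝ, E) ∞ M] [T2Space M]
    (β : (x : M) → TangentSpace 𝓘(ℝ, E) x →L[ℝ] ℝ) (_ : IsContact β)
    (m : ℕ) (A : VS β m) (κ₀ : Fin m → ℝ) (_ : IsReeb β (A.X κ₀))
    (d : ℕ) (C : Set M) (_ : IsCompact C) (_ : IsConnected C)
    (_ : ∀ θ, ∀ x ∈ C, A.act θ x ∈ C) (_ : ∀ x ∈ C, A.od x = d)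
    (S : TH607.Slices (E := E) (Fin (2 * d - 1) → ℝ) C)
    (_ : ∀ (a : C) (u : E), (S.s a).j ((S.s a).p (mfderiv 𝓘(ℝ, E) 𝓘(ℝ, E) (S.s a).φ (a : M) u)) =
        (mfderiv 𝓘(ℝ, E) 𝓘(ℝ, E) (S.s a).φ (a : M) u : E) →
      (∀ c, dForm 𝓘(ℝ, E) (A.H c) (a : M) u = 0) → ∃ c, (A.X c (a : M) : E) = u),
    ∃ (N : Type v) (_ : TopologicalSpace N) (_ : ChartedSpace (Fin (2 * d - 1) → ℝ) N)
      (_ : IsManifold 𝓘(ℝ, Fin (2 * d - 1) → ℝ) ∞ N) (_ : T2Space N) (_ : CompactSpace N)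
      (_ : ConnectedSpace N) (ι : N → M)
      (γ : (x : N) → TangentSpace 𝓘(ℝ, Fin (2 * d - 1) → ℝ) x →L[ℝ] ℝ) (B : VS γ m),
      ContMDiff 𝓘(ℝ, Fin (2 * d - 1) → ℝ) 𝓘(ℝ, E) ∞ ι ∧ (∀ x, ι x ∈ C) ∧
      (∀ θ x, ι (B.act θ x) = A.act θ (ι x)) ∧
      IsContact γ ∧ IsReeb γ (B.X κ₀) ∧ ∀ x, B.od x = d

/-- **(LOC)** Local product structure of an action with a momentum map.

Proof. `𝔪 = perp y₀` is a complement of the isotropy algebra; `X : 𝔪 → O` (orbit tangent space at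
`y₀`) is bijective; let `Z` be a complement of `O` in `E`. `Λ(s,z) = A(s)(chart⁻¹(p + z))` is a local
diffeomorphism at `0 ∈ 𝔪 × Z` (inverse function theorem, compare `exists_local_diffeo` in
`Pool/Agent/TH607/Fx/SliceC.lean`). `D(z ↦ μ(chart⁻¹(p+z)))(0)` is injective on `Z` (`Mom.ker`), so
`z ↦ μ(chart⁻¹(p+z))` is injective near `0`. Let `σ` be the `s`-coordinate. If `μ y = μ y'` then
(invariance) the `z`-coordinates agree, so `y' = Λ(σ y', z) = A(σ y' - σ y) y`. If `y ∈ U`, `s ∈ 𝔪`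
small, `A(s)y = y`, `y = Λ(σ y, z)`, then `Λ(σ y + s, z) = Λ(σ y, z)` and so `s = 0`. -/
def S_LOC : Prop :=
  ∀ (E : Type u) [NormedAddCommGroup E] [NormedSpace ℝ E] [FiniteDimensional ℝ E]
    (N : Type v) [TopologicalSpace N] [ChartedSpace E N] [IsManifold 𝓘(ℝ, E) ∞ N] [T2Space N]
    (m : ℕ) (A : VA E N m) (μ : N → (Fin m → ℝ)) (_ : A.Mom μ) (y₀ : N),
    ∃ (U : Set N) (σ : N → (Fin m → ℝ)) (ε : ℝ), IsOpen U ∧ y₀ ∈ U ∧ 0 < ε ∧
      ContMDiffOn 𝓘(ℝ, E) 𝓘(ℝ, Fin m → ℝ) ∞ σ U ∧ (∀ y ∈ U, σ y ∈ A.perp y₀) ∧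
      (∀ y ∈ U, ∀ y' ∈ U, μ y = μ y' → A.act (σ y' - σ y) y = y') ∧
      (∀ y ∈ U, ∀ s ∈ A.perp y₀, ‖s‖ < ε → A.act s y = y → s = 0)

/-- **(COC)** The stabilisers are cocompact.

Proof. Suppose that for every `R` some `w` has no `g ∈ G = {g : A(g)y = y}` with `‖w - g‖ ≤ R`. Choose
inductively `w_k` with `‖w_k - g‖ > ‖w_j‖ + 1` for all `j < k`, `g ∈ G`. The points `A(w_k) y` have a
cluster point `z` (compactness); take `U`, `σ` of LOC at `z`, and `U' ⊂ U` with `‖σ - σ z‖ < 1/2`. For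
some `j < k`: `A(w_j)y, A(w_k)y ∈ U'`, with the same `μ`, so `A(σ' - σ) A(w_j) y = A(w_k) y` with
`‖σ' - σ‖ < 1`, so `g = w_k - w_j - (σ' - σ) ∈ G` and `‖w_k - g‖ ≤ ‖w_j‖ + 1`: contradiction. -/
def S_COC : Prop :=
  ∀ (E : Type u) [NormedAddCommGroup E] [NormedSpace ℝ E] [FiniteDimensional ℝ E]
    (N : Type v) [TopologicalSpace N] [ChartedSpace E N] [IsManifold 𝓘(ℝ, E) ∞ N] [T2Space N]
    [CompactSpace N]
    (m : ℕ) (A : VA E N m) (μ : N → (Fin m → ℝ)) (_ : A.Mom μ) (_ : S_LOC.{u, v}) (y : N),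
    ∃ R : ℝ, ∀ w : Fin m → ℝ, ∃ g : Fin m → ℝ, A.act g y = y ∧ ‖w - g‖ ≤ R

/-- **(LAT)** A basis of the period lattice of one orbit.

Proof. `A.Lat y` is a subgroup of `V = perp y` (dimension `od y`: it is a complement of
`ker (A.XL y)`), discrete (`hdisc`), and cocompact in `V`: for `w ∈ V` take `g` with `‖w - g‖ ≤ R`,
`g = v + h`, `v ∈ V`, `h ∈ ker (A.XL y)` (orthogonal decomposition; norms: equivalence of norms),
`v ∈ A.Lat y` because `A(h)y = y` (`act_eq_of_X_eq_zero`). So it is a lattice in `V` and has a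
`ℤ`-basis which is an `ℝ`-basis of `V` (Mathlib: `IsZLattice`, `ZLattice`, `ofZLatticeBasis`). -/
def S_LAT : Prop :=
  ∀ (E : Type u) [NormedAddCommGroup E] [NormedSpace ℝ E] [FiniteDimensional ℝ E]
    (N : Type v) [TopologicalSpace N] [ChartedSpace E N] [IsManifold 𝓘(ℝ, E) ∞ N] [T2Space N]
    (m : ℕ) (A : VA E N m) (y : N)
    (_ : ∃ R : ℝ, ∀ w : Fin m → ℝ, ∃ g : Fin m → ℝ, A.act g y = y ∧ ‖w - g‖ ≤ R)
    (_ : ∃ ε > 0, ∀ s ∈ A.perp y, ‖s‖ < ε → A.act s y = y → s = 0),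
    ∃ b : Fin (A.od y) → Fin m → ℝ, LinearIndependent ℝ b ∧
      ∀ s, s ∈ A.Lat y ↔ ∃ n : Fin (A.od y) → ℤ, s = ∑ i, (n i : ℝ) • b i

/-- **(BAS)** Smooth local bases of the period lattices, when the orbit dimension is constant.

Proof. Let `b_1..b_d` be a basis of `Lat y₀` (`hlat`), `U, σ, ε` from LOC at `y₀`. For `y` near `y₀`
the point `A(b_i)y` is in `U` with the same `μ` as `y`, so `β_i(y) = b_i - (σ(A(b_i)y) - σ(y))` fixes
`y` [`A(σ(A(b_i)y) - σ y) y = A(b_i) y`], `β_i` is smooth, `β_i(y₀) = b_i`. Let `b_i(y) = P_y β_i(y)`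
with `P_y` the orthogonal projection onto `perp y` along `𝔥_y = ker (XL y)` (which fixes `y`): smooth
in `y` because `𝔥_y` has constant dimension (near `y₀` it is the graph of a linear map
`M_y : 𝔥 → 𝔥^⊥`, `𝔥 = 𝔥_{y₀}`, depending smoothly on `y`; Gram matrix of the basis
`e_k + M_y e_k`). So `b_i(y) ∈ Lat y`, linearly independent for `y` near `y₀`. They generate `Lat y`
for `y` near `y₀`: otherwise there are `y_k → y₀` and `λ_k ∈ Lat y_k`, not in the span of the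
`b_i(y_k)` but `λ_k = Σ θ_i b_i(y_k)` with `|θ_i| ≤ 1/2` (note that `b_i(y_k)` is an `ℝ`-basis of
`perp y_k`, of dimension `d`); a limit `λ = Σ θ_i b_i` is in `Lat y₀`, `|θ_i| ≤ 1/2`, so `λ = 0` and
`λ_k → 0`. Write `λ_k = s_k + η_k`, `s_k ∈ perp y₀`, `η_k ∈ 𝔥_{y_k}` (possible with
`s_k → 0`, as `perp y₀ ⊕ 𝔥_y = ℝ^m` for `y` near `y₀`), `A(s_k) y_k = y_k`, so `s_k = 0` (LOC),
`λ_k ∈ perp y_k ∩ 𝔥_{y_k} = 0`, contradiction. -/
def S_BAS : Prop :=
  ∀ (E : Type u) [NormedAddCommGroup E] [NormedSpace ℝ E] [FiniteDimensional ℝ E]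
    (N : Type v) [TopologicalSpace N] [ChartedSpace E N] [IsManifold 𝓘(ℝ, E) ∞ N] [T2Space N]
    (m : ℕ) (A : VA E N m) (μ : N → (Fin m → ℝ)) (_ : A.Mom μ) (_ : S_LOC.{u, v})
    (d : ℕ) (_ : ∀ x, A.od x = d)
    (_ : ∀ y, ∃ b : Fin d → Fin m → ℝ, LinearIndependent ℝ b ∧
      ∀ s, s ∈ A.Lat y ↔ ∃ n : Fin d → ℤ, s = ∑ i, (n i : ℝ) • b i),
    LocBases E d A.Lat

/-- **(COV)** The component of a basis in the covering space of all the bases of a locally trivial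
family of lattices, as a regular covering manifold.

Proof. `B = Bases d L ⊂ N × (ℝ^m)^d`. Over `U` (from `LocBases`, local basis `b`) the pairs in `B`
are `(y, g b(y))`, `g ∈ GL(d, ℤ)`, where `g` is a continuous (so locally constant) function on
`B|U`: so `fst : B → N` is a local homeomorphism (even a covering map), with the local sections
`y ↦ (y, g b(y))`. `B` is closed in `N × (ℝ^m)^d`, so `σ`-compact, and Hausdorff; so is its component
`C` (closed in `B`; open in `B`, as `N` is locally connected). Charts of `C`: the chart of `N` composed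
with `fst` on a sheet; `fst` becomes a local diffeomorphism and `snd` smooth. `Γ` = the stabiliser of
`C` in `GL(d, ℤ)` (units of integer matrices), acting by `(g • (y, b))_i = Σ_j g_ij b_j`. Fibres: two
bases of the same lattice differ by `g ∈ GL(d, ℤ)`; if `x, g x ∈ C` then `g C = C`. Surjectivity:
`fst(C)` is open, and closed: around `y` in the closure take a connected open `U` with a
trivialisation; a sheet over `U` that meets `C` is contained in `C`. -/
def S_COV : Prop :=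
  ∀ (E : Type u) [NormedAddCommGroup E] [NormedSpace ℝ E] [FiniteDimensional ℝ E]
    (N : Type v) [TopologicalSpace N] [ChartedSpace E N] [IsManifold 𝓘(ℝ, E) ∞ N] [T2Space N]
    [CompactSpace N] [ConnectedSpace N]
    (d m : ℕ) (L : N → Set (Fin m → ℝ)) (_ : LocBases E d L)
    (p₀ : N × (Fin d → Fin m → ℝ)) (_ : p₀ ∈ Bases d L),
    ∃ (_ : ChartedSpace E (connectedComponentIn (Bases d L) p₀))
      (_ : IsManifold 𝓘(ℝ, E) ∞ (connectedComponentIn (Bases d L) p₀))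
      (_ : SigmaCompactSpace (connectedComponentIn (Bases d L) p₀))
      (_ : ConnectedSpace (connectedComponentIn (Bases d L) p₀))
      (Γ : Type) (_ : Group Γ) (_ : MulAction Γ (connectedComponentIn (Bases d L) p₀)),
      H826R2.WStmt.IsQuotientMap E
        (fun p : connectedComponentIn (Bases d L) p₀ => (p : N × (Fin d → Fin m → ℝ)).1) Γ ∧
      ContMDiff 𝓘(ℝ, E) 𝓘(ℝ, Fin d → Fin m → ℝ) ∞
        (fun p : connectedComponentIn (Bases d L) p₀ => (p : N × (Fin d → Fin m → ℝ)).2) ∧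
      ∀ γ : Γ, ∃ g : Matrix (Fin d) (Fin d) ℤ, ∀ p : connectedComponentIn (Bases d L) p₀,
        ∀ i, ((γ • p : connectedComponentIn (Bases d L) p₀) : N × (Fin d → Fin m → ℝ)).2 i =
          ∑ j, (g i j : ℝ) • (p : N × (Fin d → Fin m → ℝ)).2 j

end Pool.Agent.J4H20.CI
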