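import Mathlib
import Pool.Agent.H826R2.Wein.Stmt
import Pool.Agent.TH607.Fx.Stmt

/-! Definitions for the statement about contact forms with commuting first integrals. -/

open scoped Topology ContDiff Manifold
open Set Pool.Agent.H826R2.WStmt Pool.Agent.TH607.FxStmt

noncomputable section

namespace Pool.Agent.J4H20.CIStmt

variable {E : Type*} [NormedAddCommGroup E] [NormedSpace ℝ E]
  {M : Type*} [TopologicalSpace M] [ChartedSpace E M]

/-- A smooth action of the vector group `ℝ^m` on `M` preserving the one-form `α`. -/
structure StrictAction (α : M → Cov E) (m : ℕ) where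
  act : (Fin m → ℝ) → M → M
  smooth : SmoothAct E act
  zero : ∀ x, act 0 x = x
  add : ∀ θ θ' x, act (θ + θ') x = act θ (act θ' x)
  strict : ∀ θ, pull (act θ) α = α

variable {α : M → Cov E} {m : ℕ}

/-- The generator `X_c` of the action in the direction `c ∈ ℝ^m`. -/
def gen (A : StrictAction α m) (c : Fin m → ℝ) (x : M) : E :=
  D (E := Fin m → ℝ) (E' := E) (fun θ : Fin m → ℝ => A.act θ x) 0 c

/-- The first integral `H_c = α(X_c)`. -/
def firstIntegral (A : StrictAction α m) (c : Fin m → ℝ) (x : M) : ℝ := ev (α x) (gen A c x)

/-- All the first integrals `H_c` are constant to first order in the direction `u`. -/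
def InKernel (A : StrictAction α m) (x : M) (u : E) : Prop :=
  ∀ c, D (E := E) (E' := ℝ) (firstIntegral A c) x u = 0

/-- The second derivative of a function at `x` in the preferred chart at `x` (the Hessian, if `x` is
a critical point). -/
def hess (g : M → ℝ) (x : M) (u v : E) : ℝ :=
  fderiv ℝ (fderiv ℝ (g ∘ (extChartAt 𝓘(ℝ, E) x).symm)) (extChartAt 𝓘(ℝ, E) x x) u v

/-- The action is weakly nondegenerate at `x`: for some direction `c` with `X_c(x) = 0` the Hessian
of `H_c` at `x`, restricted to the common kernel of the differentials of all the first integrals, is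
nondegenerate transversally to the orbit of `x`. -/
def WeaklyNondegenerate (A : StrictAction α m) (x : M) : Prop :=
  ∃ c, gen A c x = 0 ∧ ∀ u : E, InKernel A x u →
    (∀ v : E, InKernel A x v → hess (firstIntegral A c) x u v = 0) → ∃ c', gen A c' x = u

/-- The group `G` has a solvable subgroup of finite index. -/
def VirtuallySolvable (G : Type*) [Group G] : Prop :=
  ∃ H : Subgroup G, H.FiniteIndex ∧ Group.IsSolvable H

/-- The connected component of `x₀` in the set of the points with orbits of dimension at most
`d`. -/
def lowComponent (A : StrictAction α m) (d : ℕ) (x₀ : M) : Set M :=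
  connectedComponentIn {x | orbitDim E A.act x ≤ d} x₀

end Pool.Agent.J4H20.CIStmt
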