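import Mathlib
import Pool.Agent.J4H20.CI.Stm

/-! Linear algebra of strict actions at one point. -/

open scoped Topology ContDiff Manifold
open Set Metric Pool.Agent.Helper186 Pool.Agent.H826R2.Wein

noncomputable section

namespace Pool.Agent.J4H20.CI

set_option linter.unusedSectionVars false

universe u v

variable {E : Type u} [NormedAddCommGroup E] [NormedSpace ℝ E] [FiniteDimensional ℝ E]
  {P : Type v} [TopologicalSpace P] [ChartedSpace E P] [IsManifold 𝓘(ℝ, E) ∞ P] {m : ℕ}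
  {β : (x : P) → TangentSpace 𝓘(ℝ, E) x →L[ℝ] ℝ} (A : VS β m)

namespace VS

/-- the exterior derivative as a linear map -/
def ext (β : (x : P) → TangentSpace 𝓘(ℝ, E) x →L[ℝ] ℝ) (x : P) : E →ₗ[ℝ] Module.Dual ℝ E where
  toFun u := (show E →L[ℝ] ℝ from extDerL 𝓘(ℝ, E) β x u : E →L[ℝ] ℝ).toLinearMap
  map_add' u u' := by
    refine LinearMap.ext fun v => ?_
    have h := DFunLike.congr_fun (map_add (extDerL 𝓘(ℝ, E) β x) u u') v
    exact h
  map_smul' r u := by
    refine LinearMap.ext fun v => ?_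
    have h := DFunLike.congr_fun (map_smul (extDerL 𝓘(ℝ, E) β x) r u) v
    exact h

lemma ext_apply (x : P) (u v : E) : ext β x u v = extDer 𝓘(ℝ, E) β x u v := rfl

/-- the differentials of the contact Hamiltonians, as a linear map -/
def dHL (x : P) : (Fin m → ℝ) →ₗ[ℝ] Module.Dual ℝ E := -(ext β x ∘ₗ A.XL x)

lemma dHL_apply (hβ : SmoothForm β) (x : P) (c : Fin m → ℝ) (u : E) :
    A.dHL x c u = dForm 𝓘(ℝ, E) (A.H c) x u := by
  rw [A.dH hβ c x u]
  rfl

lemma dHL_eq_zero_iff (hβ : SmoothForm β) {x : P} {c : Fin m → ℝ} :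
    A.dHL x c = 0 ↔ dForm 𝓘(ℝ, E) (A.H c) x = 0 := by
  constructor
  · intro h
    refine ContinuousLinearMap.ext fun u => ?_
    have h1 := A.dHL_apply hβ x c u
    rw [h] at h1
    exact h1.symm
  · intro h
    refine LinearMap.ext fun u => ?_
    rw [A.dHL_apply hβ x c u, h]
    rfl

/-- `X_c(x) = 0` if and only if `H_c(x) = 0` and `dH_c(x) = 0` -/
lemma X_eq_zero_iff (hc : IsContact β) {R : (x : P) → TangentSpace 𝓘(ℝ, E) x} (hR : IsReeb β R)
    {x : P} {c : Fin m → ℝ} : A.X c x = 0 ↔ A.H c x = 0 ∧ A.dHL x c = 0 := by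
  constructor
  · intro h
    refine ⟨by unfold H; rw [h, map_zero], ?_⟩
    have h1 : A.XL x c = 0 := h
    show -(ext β x (A.XL x c)) = 0
    rw [h1, map_zero, neg_zero]
  · rintro ⟨h1, h2⟩
    rw [A.X_eq_of_crit hc hR ((A.dHL_eq_zero_iff hc.smooth).1 h2), h1, zero_smul]

/-- the kernel of the exterior derivative is spanned by the Reeb vector -/
lemma ext_eq_zero_iff (hc : IsContact β) {R : (x : P) → TangentSpace 𝓘(ℝ, E) x}
    (hR : IsReeb β R) {x : P} {u : E} :
    ext β x u = 0 ↔ ∃ r : ℝ, r • (show E from R x) = u := by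
  constructor
  · intro hu
    have hu' : ∀ w : TangentSpace 𝓘(ℝ, E) x, w = u → ∃ r : ℝ, r • R x = w := by
      intro w hw
      refine ⟨β x w, ?_⟩
      have h0 : (w - β x w • R x : TangentSpace 𝓘(ℝ, E) x) = 0 := by
        apply hc.nondeg
        · rw [map_sub, map_smul, hR.unit]
          simp
        · intro v _
          have h1 : extDerL 𝓘(ℝ, E) β x (w - β x w • R x) v =
              extDerL 𝓘(ℝ, E) β x w v - β x w * extDerL 𝓘(ℝ, E) β x (R x) v := by
            rw [map_sub, map_smul]; rfl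
          rw [extDerL_apply, extDerL_apply, extDerL_apply, hR.kernel] at h1
          rw [h1]
          have h2 : ext β x w v = 0 := by
            have h3 : ext β x w = 0 := by rw [hw]; exact hu
            rw [h3]; rfl
          rw [ext_apply] at h2
          rw [h2]; ring
      exact (sub_eq_zero.1 h0).symm
    exact hu' u rfl
  · rintro ⟨r, rfl⟩
    rw [map_smul]
    have h : ext β x (R x) = 0 := by
      refine LinearMap.ext fun v => ?_
      exact hR.kernel x v
    show r • ext β x (R x) = 0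
    rw [h, smul_zero]

/-- the rank of the differentials of the integrals is the dimension of the orbit minus one -/
lemma finrank_dHL (hc : IsContact β) {κ₀ : Fin m → ℝ} (hR : IsReeb β (A.X κ₀)) (x : P) :
    Module.finrank ℝ (LinearMap.range (A.dHL x)) + 1 = A.od x := by
  have e1 : LinearMap.range (A.dHL x) = Submodule.map (ext β x) (LinearMap.range (A.XL x)) := by
    ext l
    simp only [LinearMap.mem_range, Submodule.mem_map]
    constructor
    · rintro ⟨c, rfl⟩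
      refine ⟨A.XL x (-c), ⟨-c, rfl⟩, ?_⟩
      rw [map_neg, map_neg]
      rfl
    · rintro ⟨_, ⟨c, rfl⟩, rfl⟩
      refine ⟨-c, ?_⟩
      show -(ext β x (A.XL x (-c))) = _
      rw [map_neg, map_neg, neg_neg]
  have hRne : (A.X κ₀ x : E) ≠ 0 := by
    intro h
    have h1 := hR.unit x
    have h2 : β x (A.X κ₀ x) = 0 := by
      have : A.X κ₀ x = 0 := h
      rw [this, map_zero]
    rw [h2] at h1
    exact zero_ne_one h1
  let f := (ext β x).domRestrict (LinearMap.range (A.XL x))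
  have h1 := LinearMap.finrank_range_add_finrank_ker f
  have h2 : LinearMap.range f = Submodule.map (ext β x) (LinearMap.range (A.XL x)) :=
    LinearMap.range_domRestrict _ _
  have h3 : Module.finrank ℝ (LinearMap.ker f) = 1 := by
    let r : LinearMap.ker f := ⟨⟨(A.X κ₀ x : E), ⟨κ₀, rfl⟩⟩, by
      rw [LinearMap.mem_ker]
      show ext β x (A.X κ₀ x) = 0
      refine LinearMap.ext fun v => ?_
      exact hR.kernel x v⟩
    apply finrank_eq_one r
    · intro h
      apply hRne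
      exact congrArg (fun z : LinearMap.ker f => ((z : LinearMap.range (A.XL x)) : E)) h
    · rintro ⟨⟨u, hu⟩, hu'⟩
      have h4 : ext β x u = 0 := by
        rw [LinearMap.mem_ker] at hu'
        exact hu'
      obtain ⟨a, ha⟩ := (ext_eq_zero_iff hc hR).1 h4
      exact ⟨a, Subtype.ext (Subtype.ext ha)⟩
  rw [h3, h2, ← e1] at h1
  exact h1

/-- the common kernel of the differentials of the integrals -/
def kerH (x : P) : Submodule ℝ E := (LinearMap.range (A.dHL x)).dualCoannihilator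

lemma mem_kerH {x : P} {u : E} : u ∈ A.kerH x ↔ ∀ c, A.dHL x c u = 0 := by
  unfold kerH
  rw [Submodule.mem_dualCoannihilator]
  constructor
  · intro h c
    exact h _ ⟨c, rfl⟩
  · rintro h _ ⟨c, rfl⟩
    exact h c

lemma mem_kerH' (hβ : SmoothForm β) {x : P} {u : E} :
    u ∈ A.kerH x ↔ ∀ c, dForm 𝓘(ℝ, E) (A.H c) x u = 0 := by
  rw [mem_kerH]
  exact forall_congr' fun c => by rw [A.dHL_apply hβ]

lemma finrank_kerH (x : P) :
    Module.finrank ℝ (LinearMap.range (A.dHL x)) + Module.finrank ℝ (A.kerH x) =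
      Module.finrank ℝ E :=
  Subspace.finrank_add_finrank_dualCoannihilator_eq _

/-- the integrals are constant along the orbits -/
lemma dHL_X (hβ : SmoothForm β) (x : P) (c c' : Fin m → ℝ) : A.dHL x c (A.X c' x) = 0 := by
  rw [A.dHL_apply hβ]
  have h1 := A.hasMFDerivAt_fam_zero c' x
  have h2 : HasMFDerivAt 𝓘(ℝ, E) 𝓘(ℝ, ℝ) (A.H c) (A.fam c' (0, x))
      (mfderiv 𝓘(ℝ, E) 𝓘(ℝ, ℝ) (A.H c) (A.fam c' (0, x))) :=
    ((A.smooth_H hβ c).mdifferentiableAt (by simp)).hasMFDerivAt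
  have h3 := HasMFDerivAt.comp (0:ℝ) (g := A.H c) (f := fun t : ℝ => A.fam c' (t, x)) h2 h1
  have e : (A.H c ∘ fun t : ℝ => A.fam c' (t, x)) = fun _ => A.H c x := by
    ext1 t
    exact A.H_act c (t • c') x
  rw [e] at h3
  have h4 := hasMFDerivAt_unique h3 (hasMFDerivAt_const (A.H c x) (0:ℝ))
  have h5 := DFunLike.congr_fun h4 (1:ℝ)
  have hone : ((1 : ℝ →L[ℝ] ℝ) 1 • (A.X c' x : E) : E) = A.X c' x := by
    show (1:ℝ) • (A.X c' x : E) = _
    rw [one_smul]
  have h6 : (mfderiv 𝓘(ℝ, E) 𝓘(ℝ, ℝ) (A.H c) (A.fam c' (0, x))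
      ((1 : ℝ →L[ℝ] ℝ) 1 • (A.X c' x : E)) : ℝ) = 0 := h5
  rw [hone] at h6
  have h7 : ∀ z : P, z = x → (mfderiv 𝓘(ℝ, E) 𝓘(ℝ, ℝ) (A.H c) z (A.X c' x : E) : ℝ) =
      dForm 𝓘(ℝ, E) (A.H c) x (A.X c' x) := by
    rintro _ rfl; rfl
  rw [← h7 _ (A.fam_zero c' x)]
  exact h6

lemma range_XL_le (hβ : SmoothForm β) (x : P) : LinearMap.range (A.XL x) ≤ A.kerH x := by
  rintro _ ⟨c', rfl⟩
  rw [mem_kerH]
  intro c
  exact A.dHL_X hβ x c c'

/-- in dimension `2d - 1` the orbits of dimension `d` are the fibres -/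
lemma kerH_eq (hc : IsContact β) {κ₀ : Fin m → ℝ} (hR : IsReeb β (A.X κ₀)) {x : P} {d : ℕ}
    (hd : A.od x = d) (hE : Module.finrank ℝ E = 2 * d - 1) :
    A.kerH x = LinearMap.range (A.XL x) := by
  symm
  apply Submodule.eq_of_le_of_finrank_le (A.range_XL_le hc.smooth x)
  have h1 := A.finrank_kerH x
  have h2 := A.finrank_dHL hc hR x
  have h3 : Module.finrank ℝ (LinearMap.range (A.XL x)) = d := hd
  omega

/-- the momentum map -/
def mu (x : P) : Fin m → ℝ := fun i => A.H (Pi.single i 1) x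

lemma H_eq_sum (x : P) (c : Fin m → ℝ) : A.H c x = ∑ i, c i * A.mu x i := by
  let l : (Fin m → ℝ) →ₗ[ℝ] ℝ :=
    { toFun := fun c => A.H c x
      map_add' := fun c c' => A.H_add c c' x
      map_smul' := fun r c => A.H_smul r c x }
  have h := LinearMap.pi_apply_eq_sum_univ l c
  have h2 : l c = A.H c x := rfl
  rw [h2] at h
  rw [h]
  refine Finset.sum_congr rfl fun i _ => ?_
  rw [smul_eq_mul]
  congr 1
  show A.H _ x = A.H _ x
  congr 1
  ext j
  simp [Pi.single_apply, eq_comm]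

lemma mu_smooth (hβ : SmoothForm β) : ContMDiff 𝓘(ℝ, E) 𝓘(ℝ, Fin m → ℝ) ∞ A.mu := by
  rw [contMDiff_pi_space]
  intro i
  exact A.smooth_H hβ _

lemma mu_act (θ : Fin m → ℝ) (x : P) : A.mu (A.act θ x) = A.mu x := by
  ext i
  exact A.H_act _ θ x

lemma H_eq_clm (c : Fin m → ℝ) : ∃ l : (Fin m → ℝ) →L[ℝ] ℝ, ∀ x, A.H c x = l (A.mu x) := by
  refine ⟨∑ i, c i • ContinuousLinearMap.proj i, fun x => ?_⟩
  rw [A.H_eq_sum]
  simp

/-- the momentum map satisfies `VA.Mom` -/
lemma mom (hc : IsContact β) {κ₀ : Fin m → ℝ} (hR : IsReeb β (A.X κ₀)) {d : ℕ}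
    (hd : ∀ x, A.od x = d) (hE : Module.finrank ℝ E = 2 * d - 1) : A.toVA.Mom A.mu where
  smooth := A.mu_smooth hc.smooth
  inv := A.mu_act
  ker := by
    intro x u hu
    have h1 : u ∈ A.kerH x := by
      rw [A.mem_kerH' hc.smooth]
      intro c
      obtain ⟨l, hl⟩ := A.H_eq_clm c
      have e : A.H c = l ∘ A.mu := by ext1 y; exact hl y
      have h2 : mfderiv 𝓘(ℝ, E) 𝓘(ℝ, ℝ) (l ∘ A.mu) x =
          (mfderiv 𝓘(ℝ, Fin m → ℝ) 𝓘(ℝ, ℝ) l (A.mu x)).comp
            (mfderiv 𝓘(ℝ, E) 𝓘(ℝ, Fin m → ℝ) A.mu x) :=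
        mfderiv_comp _ ((l.contMDiff (n := ∞)).mdifferentiableAt (by simp))
          ((A.mu_smooth hc.smooth).mdifferentiableAt (by simp))
      show (mfderiv 𝓘(ℝ, E) 𝓘(ℝ, ℝ) (A.H c) x) u = 0
      rw [e, h2]
      show (mfderiv 𝓘(ℝ, Fin m → ℝ) 𝓘(ℝ, ℝ) l (A.mu x))
            ((mfderiv 𝓘(ℝ, E) 𝓘(ℝ, Fin m → ℝ) A.mu x) u) = 0
      rw [hu, map_zero]
    rw [A.kerH_eq hc hR (hd x) hE] at h1
    obtain ⟨c, hc'⟩ := h1
    exact ⟨c, hc'⟩

end VS

end Pool.Agent.J4H20.CI
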