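import Mathlib
import Pool.Agent.J4H20.CI.Lin

/-! Derivative of `p ↦ A(w p)(g p)`, and periods. -/

open scoped Topology ContDiff Manifold
open Set Metric Pool.Agent.Helper186 Pool.Agent.H826R2.Wein

noncomputable section

namespace Pool.Agent.J4H20.CI

set_option linter.unusedSectionVars false

universe u v

section

variable {E : Type u} [NormedAddCommGroup E] [NormedSpace ℝ E] [FiniteDimensional ℝ E]
  {P : Type v} [TopologicalSpace P] [ChartedSpace E P] [IsManifold 𝓘(ℝ, E) ∞ P] {m : ℕ}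
  {F : Type*} [NormedAddCommGroup F] [NormedSpace ℝ F]
  {X : Type*} [TopologicalSpace X] [ChartedSpace F X]

namespace VA

variable (A : VA E P m)

/-- the derivative of the orbit map at any time -/
lemma mfderiv_left (x : P) (w κ : Fin m → ℝ) :
    (mfderiv 𝓘(ℝ, Fin m → ℝ) 𝓘(ℝ, E) (fun θ => A.act θ x) w κ : E) = A.X κ (A.act w x) := by
  have h0 : HasMFDerivAt 𝓘(ℝ, Fin m → ℝ) 𝓘(ℝ, Fin m → ℝ) (fun θ : Fin m → ℝ => θ - w) w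
      (ContinuousLinearMap.id ℝ (Fin m → ℝ)) :=
    ((hasFDerivAt_id w).sub_const w).hasMFDerivAt
  have h1 : HasMFDerivAt 𝓘(ℝ, Fin m → ℝ) 𝓘(ℝ, E) (fun θ => A.act θ (A.act w x)) (w - w)
      (mfderiv 𝓘(ℝ, Fin m → ℝ) 𝓘(ℝ, E) (fun θ => A.act θ (A.act w x)) (w - w)) :=
    ((A.smooth_left (A.act w x)).mdifferentiableAt (by simp)).hasMFDerivAt
  have h2 := (HasMFDerivAt.comp w (g := fun θ => A.act θ (A.act w x))
    (f := fun θ : Fin m → ℝ => θ - w) h1 h0).mfderiv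
  have e : ((fun θ => A.act θ (A.act w x)) ∘ fun θ : Fin m → ℝ => θ - w) =
      fun θ => A.act θ x := by
    ext1 θ
    simp only [Function.comp]
    rw [← A.add, sub_add_cancel]
  rw [e] at h2
  have h3 : (mfderiv 𝓘(ℝ, Fin m → ℝ) 𝓘(ℝ, E) (fun θ => A.act θ x) w κ : E) =
      (mfderiv 𝓘(ℝ, Fin m → ℝ) 𝓘(ℝ, E) (fun θ => A.act θ (A.act w x)) (w - w) κ : E) := by
    rw [h2]; rfl
  rw [h3]
  have h4 : ∀ v : Fin m → ℝ, v = 0 →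
      (mfderiv 𝓘(ℝ, Fin m → ℝ) 𝓘(ℝ, E) (fun θ => A.act θ (A.act w x)) v κ : E) =
        A.X κ (A.act w x) := by
    rintro _ rfl; rfl
  exact h4 _ (sub_self w)

/-- the derivative of `p ↦ A(w p)(g p)` -/
lemma mfderiv_act {w : X → (Fin m → ℝ)} {g : X → P} {p : X}
    (hw : MDifferentiableAt 𝓘(ℝ, F) 𝓘(ℝ, Fin m → ℝ) w p)
    (hg : MDifferentiableAt 𝓘(ℝ, F) 𝓘(ℝ, E) g p) (u : F) :
    (mfderiv 𝓘(ℝ, F) 𝓘(ℝ, E) (fun p => A.act (w p) (g p)) p u : E) =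
      A.X (show Fin m → ℝ from mfderiv 𝓘(ℝ, F) 𝓘(ℝ, Fin m → ℝ) w p u) (A.act (w p) (g p)) +
        (mfderiv 𝓘(ℝ, E) 𝓘(ℝ, E) (A.act (w p)) (g p)
          (mfderiv 𝓘(ℝ, F) 𝓘(ℝ, E) g p u) : E) := by
  have h1 : MDifferentiableAt (𝓘(ℝ, Fin m → ℝ).prod 𝓘(ℝ, E)) 𝓘(ℝ, E)
      (fun p : (Fin m → ℝ) × P => A.act p.1 p.2) (w p, g p) :=
    A.smooth.mdifferentiableAt (by simp)
  have h2 : HasMFDerivAt 𝓘(ℝ, F) (𝓘(ℝ, Fin m → ℝ).prod 𝓘(ℝ, E)) (fun p => (w p, g p)) p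
      ((mfderiv 𝓘(ℝ, F) 𝓘(ℝ, Fin m → ℝ) w p).prod (mfderiv 𝓘(ℝ, F) 𝓘(ℝ, E) g p)) :=
    hw.hasMFDerivAt.prodMk hg.hasMFDerivAt
  have h3 := (HasMFDerivAt.comp p (g := fun p : (Fin m → ℝ) × P => A.act p.1 p.2)
    (f := fun p => (w p, g p)) h1.hasMFDerivAt h2).mfderiv
  have h4 : (mfderiv 𝓘(ℝ, F) 𝓘(ℝ, E) (fun p => A.act (w p) (g p)) p u : E) =
      mfderiv (𝓘(ℝ, Fin m → ℝ).prod 𝓘(ℝ, E)) 𝓘(ℝ, E)
        (fun p : (Fin m → ℝ) × P => A.act p.1 p.2) (w p, g p)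
        (mfderiv 𝓘(ℝ, F) 𝓘(ℝ, Fin m → ℝ) w p u, mfderiv 𝓘(ℝ, F) 𝓘(ℝ, E) g p u) := by
    have h5 := DFunLike.congr_fun h3 u
    exact h5
  rw [h4, mfderiv_prod_eq_add_apply h1]
  have h6 := A.mfderiv_left (g p) (w p) (show Fin m → ℝ from mfderiv 𝓘(ℝ, F) 𝓘(ℝ, Fin m → ℝ) w p u)
  exact congrArg (fun z : E => z + (show E from mfderiv 𝓘(ℝ, E) 𝓘(ℝ, E) (A.act (w p)) (g p)
          (mfderiv 𝓘(ℝ, F) 𝓘(ℝ, E) g p u))) h6

end VA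

namespace VS

variable {β : (x : P) → TangentSpace 𝓘(ℝ, E) x →L[ℝ] ℝ} (A : VS β m)

/-- the form on the derivative of `p ↦ A(w p)(g p)` -/
lemma form_act {w : X → (Fin m → ℝ)} {g : X → P} {p : X}
    (hw : MDifferentiableAt 𝓘(ℝ, F) 𝓘(ℝ, Fin m → ℝ) w p)
    (hg : MDifferentiableAt 𝓘(ℝ, F) 𝓘(ℝ, E) g p) (u : F) :
    β (A.act (w p) (g p)) (mfderiv 𝓘(ℝ, F) 𝓘(ℝ, E) (fun p => A.act (w p) (g p)) p u) =
      A.H (show Fin m → ℝ from mfderiv 𝓘(ℝ, F) 𝓘(ℝ, Fin m → ℝ) w p u) (g p) +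
        β (g p) (mfderiv 𝓘(ℝ, F) 𝓘(ℝ, E) g p u) := by
  have h1 := A.mfderiv_act hw hg u
  have h2 : β (A.act (w p) (g p)) (mfderiv 𝓘(ℝ, F) 𝓘(ℝ, E) (fun p => A.act (w p) (g p)) p u) =
      β (A.act (w p) (g p))
        (A.X (show Fin m → ℝ from mfderiv 𝓘(ℝ, F) 𝓘(ℝ, Fin m → ℝ) w p u) (A.act (w p) (g p)) +
        (mfderiv 𝓘(ℝ, E) 𝓘(ℝ, E) (A.act (w p)) (g p)
          (mfderiv 𝓘(ℝ, F) 𝓘(ℝ, E) g p u) : E)) :=
    congrArg (fun z : E => β (A.act (w p) (g p)) z) h1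
  rw [h2]
  have h3 : β (A.act (w p) (g p))
        (A.X (show Fin m → ℝ from mfderiv 𝓘(ℝ, F) 𝓘(ℝ, Fin m → ℝ) w p u) (A.act (w p) (g p)) +
        (mfderiv 𝓘(ℝ, E) 𝓘(ℝ, E) (A.act (w p)) (g p)
          (mfderiv 𝓘(ℝ, F) 𝓘(ℝ, E) g p u) : E)) =
      β (A.act (w p) (g p))
        (A.X (show Fin m → ℝ from mfderiv 𝓘(ℝ, F) 𝓘(ℝ, Fin m → ℝ) w p u) (A.act (w p) (g p))) +
      β (A.act (w p) (g p)) (mfderiv 𝓘(ℝ, E) 𝓘(ℝ, E) (A.act (w p)) (g p)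
          (mfderiv 𝓘(ℝ, F) 𝓘(ℝ, E) g p u)) :=
    map_add (β (A.act (w p) (g p))) _ _
  rw [h3, A.strict]
  congr 1
  exact A.H_act _ _ _

/-- the velocity of a smooth family of periods is orthogonal to the momentum -/
lemma H_period {w : X → (Fin m → ℝ)} {g : X → P} {p : X}
    (hw : MDifferentiableAt 𝓘(ℝ, F) 𝓘(ℝ, Fin m → ℝ) w p)
    (hg : MDifferentiableAt 𝓘(ℝ, F) 𝓘(ℝ, E) g p)
    (h : ∀ p, A.act (w p) (g p) = g p) (u : F) :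
    A.H (show Fin m → ℝ from mfderiv 𝓘(ℝ, F) 𝓘(ℝ, Fin m → ℝ) w p u) (g p) = 0 := by
  have h1 := A.form_act hw hg u
  have e : (fun p => A.act (w p) (g p)) = g := by ext1 p; exact h p
  have h2 : β (A.act (w p) (g p)) (mfderiv 𝓘(ℝ, F) 𝓘(ℝ, E) (fun p => A.act (w p) (g p)) p u) =
      β (g p) (mfderiv 𝓘(ℝ, F) 𝓘(ℝ, E) g p u) := by
    have h3 : ∀ (f : X → P), f = g → β (f p) (mfderiv 𝓘(ℝ, F) 𝓘(ℝ, E) f p u) =
        β (g p) (mfderiv 𝓘(ℝ, F) 𝓘(ℝ, E) g p u) := by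
      rintro _ rfl; rfl
    exact h3 _ e
  rw [h2] at h1
  linarith

end VS

end

section lift

variable {E : Type*} [NormedAddCommGroup E] [NormedSpace ℝ E]
  {P : Type*} [TopologicalSpace P] [ChartedSpace E P]
  {N : Type*} [TopologicalSpace N] [ChartedSpace E N]
  {F : Type*} [NormedAddCommGroup F] [NormedSpace ℝ F] {G : Type*} [TopologicalSpace G]
  {I : ModelWithCorners ℝ F G}
  {X : Type*} [TopologicalSpace X] [ChartedSpace G X]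

/-- a continuous lift of a smooth map through a local diffeomorphism is smooth -/
lemma contMDiff_of_lift {q : P → N} (hq : IsLocalDiffeomorph 𝓘(ℝ, E) 𝓘(ℝ, E) ∞ q) {f : X → P}
    (hf : Continuous f) (hqf : ContMDiff I 𝓘(ℝ, E) ∞ (fun x => q (f x))) :
    ContMDiff I 𝓘(ℝ, E) ∞ f := by
  intro x
  obtain ⟨Φ, hx, hΦ⟩ := hq (f x)
  have h1 : ContMDiffAt 𝓘(ℝ, E) 𝓘(ℝ, E) ∞ Φ.invFun (q (f x)) := by
    have h2 : q (f x) ∈ Φ.target := by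
      rw [hΦ hx]
      exact Φ.toPartialEquiv.map_source hx
    exact Φ.contMDiffOn_invFun.contMDiffAt (Φ.open_target.mem_nhds h2)
  have h2 := ContMDiffAt.comp x (g := Φ.invFun) (f := fun x => q (f x)) h1 (hqf x)
  refine h2.congr_of_eventuallyEq ?_
  filter_upwards [hf.continuousAt.preimage_mem_nhds (Φ.open_source.mem_nhds hx)] with y hy
  have hy' : f y ∈ Φ.source := hy
  show f y = Φ.invFun (q (f y))
  rw [hΦ hy']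
  exact (Φ.toPartialEquiv.left_inv hy').symm

end lift

end Pool.Agent.J4H20.CI
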