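import Mathlib
import Pool.Agent.J4H20.CI.Var
import Pool.Agent.TH607.Fx.Fin

/-! The torus action on the covering of lattice bases; closed Reeb orbits in dimension at most five
when all the orbits have the same dimension. -/

open scoped Topology ContDiff Manifold
open Set Metric Pool.Agent.Helper186 Pool.Agent.H826R2.Wein

noncomputable section

namespace Pool.Agent.J4H20.CI

set_option linter.unusedSectionVars false

universe u v

variable {E : Type u} [NormedAddCommGroup E] [NormedSpace ℝ E] [FiniteDimensional ℝ E]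
  {N : Type v} [TopologicalSpace N] [ChartedSpace E N] [IsManifold 𝓘(ℝ, E) ∞ N] {m : ℕ}

namespace VA

variable (A : VA E N m)

lemma X_act_eq_zero {c θ : Fin m → ℝ} {x : N} (h : A.X c x = 0) : A.X c (A.act θ x) = 0 := by
  have h1 := A.X_act c θ x
  have h2 : (A.X c x : E) = 0 := h
  rw [h2] at h1
  have h3 : (mfderiv 𝓘(ℝ, E) 𝓘(ℝ, E) (A.act θ) x (0 : E) : E) = 0 := map_zero _
  exact h1.symm.trans h3

lemma act_neg_act (θ : Fin m → ℝ) (x : N) : A.act (-θ) (A.act θ x) = x := by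
  rw [← A.add, neg_add_cancel, A.zero]

lemma X_act_eq_zero_iff {c θ : Fin m → ℝ} {x : N} : A.X c (A.act θ x) = 0 ↔ A.X c x = 0 := by
  constructor
  · intro h
    have h1 := A.X_act_eq_zero (θ := -θ) h
    rw [A.act_neg_act] at h1
    exact h1
  · exact A.X_act_eq_zero

lemma perp_act (θ : Fin m → ℝ) (x : N) : A.perp (A.act θ x) = A.perp x := by
  ext s
  show (∀ c, A.X c (A.act θ x) = 0 → ∑ i, c i * s i = 0) ↔ (∀ c, A.X c x = 0 → ∑ i, c i * s i = 0)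
  simp only [A.X_act_eq_zero_iff]

lemma act_act_eq_iff {s θ : Fin m → ℝ} {x : N} :
    A.act s (A.act θ x) = A.act θ x ↔ A.act s x = x := by
  have h : A.act s (A.act θ x) = A.act θ (A.act s x) := by
    rw [← A.add, ← A.add, add_comm]
  rw [h]
  constructor
  · intro h1
    have h2 := congrArg (A.act (-θ)) h1
    rwa [A.act_neg_act, A.act_neg_act] at h2
  · intro h1
    rw [h1]

lemma Lat_act (θ : Fin m → ℝ) (x : N) : A.Lat (A.act θ x) = A.Lat x := by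
  ext s
  show (s ∈ A.perp (A.act θ x) ∧ A.act s (A.act θ x) = A.act θ x) ↔ (s ∈ A.perp x ∧ A.act s x = x)
  rw [A.perp_act, A.act_act_eq_iff]

variable {d : ℕ}

/-- the period vector with coordinates `θ` in the basis `b` -/
def comb (θ : Fin d → ℝ) (b : Fin d → Fin m → ℝ) : Fin m → ℝ := ∑ i, θ i • b i

lemma comb_add (θ θ' : Fin d → ℝ) (b : Fin d → Fin m → ℝ) :
    comb (θ + θ') b = comb θ b + comb θ' b := by
  simp only [comb, Pi.add_apply, add_smul, Finset.sum_add_distrib]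

lemma comb_zero (b : Fin d → Fin m → ℝ) : comb 0 b = 0 := by
  simp [comb]

/-- the abbreviation for the component of the bases -/
abbrev Cb (A : VA E N m) (d : ℕ) (p₀ : N × (Fin d → Fin m → ℝ)) : Set (N × (Fin d → Fin m → ℝ)) :=
  connectedComponentIn (Bases d A.Lat) p₀

lemma mem_bases {p₀ : N × (Fin d → Fin m → ℝ)} (p : A.Cb d p₀) :
    (p : N × (Fin d → Fin m → ℝ)) ∈ Bases d A.Lat :=
  connectedComponentIn_subset _ _ p.2

lemma act_mem {p₀ : N × (Fin d → Fin m → ℝ)} (p : A.Cb d p₀) (w : Fin m → ℝ) :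
    (A.act w (p : N × (Fin d → Fin m → ℝ)).1, (p : N × (Fin d → Fin m → ℝ)).2) ∈ A.Cb d p₀ := by
  have h1 : A.Cb d p₀ = connectedComponentIn (Bases d A.Lat) (p : N × (Fin d → Fin m → ℝ)) :=
    connectedComponentIn_eq p.2
  have hpre : IsPreconnected ((fun t : ℝ => (A.act (t • w) (p : N × (Fin d → Fin m → ℝ)).1,
      (p : N × (Fin d → Fin m → ℝ)).2)) '' univ) := by
    apply isPreconnected_univ.image
    have h2 : Continuous (fun t : ℝ => A.act (t • w) (p : N × (Fin d → Fin m → ℝ)).1) :=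
      (A.smooth_left _).continuous.comp (by fun_prop)
    exact (h2.prodMk continuous_const).continuousOn
  have hsub : ((fun t : ℝ => (A.act (t • w) (p : N × (Fin d → Fin m → ℝ)).1,
      (p : N × (Fin d → Fin m → ℝ)).2)) '' univ) ⊆ Bases d A.Lat := by
    rintro _ ⟨t, -, rfl⟩
    have h3 := A.mem_bases p
    refine ⟨h3.1, ?_⟩
    intro s
    show s ∈ A.Lat (A.act (t • w) (p : N × (Fin d → Fin m → ℝ)).1) ↔ _
    rw [A.Lat_act]
    exact h3.2 s
  have h4 : ((fun t : ℝ => (A.act (t • w) (p : N × (Fin d → Fin m → ℝ)).1,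
      (p : N × (Fin d → Fin m → ℝ)).2)) '' univ) ⊆ A.Cb d p₀ := by
    refine (hpre.subset_connectedComponentIn (x := (p : N × (Fin d → Fin m → ℝ))) ?_ hsub).trans
      h1.symm.subset
    refine ⟨0, mem_univ _, ?_⟩
    simp only [zero_smul, A.zero]
  exact h4 ⟨1, mem_univ _, by simp only [one_smul]⟩

/-- the torus action on the covering -/
def tor {p₀ : N × (Fin d → Fin m → ℝ)} (θ : Fin d → ℝ) (p : A.Cb d p₀) : A.Cb d p₀ :=
  ⟨(A.act (comb θ (p : N × (Fin d → Fin m → ℝ)).2) (p : N × (Fin d → Fin m → ℝ)).1,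
    (p : N × (Fin d → Fin m → ℝ)).2), A.act_mem p _⟩

lemma tor_fst {p₀ : N × (Fin d → Fin m → ℝ)} (θ : Fin d → ℝ) (p : A.Cb d p₀) :
    (A.tor θ p : N × (Fin d → Fin m → ℝ)).1 =
      A.act (comb θ (p : N × (Fin d → Fin m → ℝ)).2) (p : N × (Fin d → Fin m → ℝ)).1 := rfl

lemma tor_snd {p₀ : N × (Fin d → Fin m → ℝ)} (θ : Fin d → ℝ) (p : A.Cb d p₀) :
    (A.tor θ p : N × (Fin d → Fin m → ℝ)).2 = (p : N × (Fin d → Fin m → ℝ)).2 := rfl

lemma tor_zero {p₀ : N × (Fin d → Fin m → ℝ)} (p : A.Cb d p₀) : A.tor 0 p = p := by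
  apply Subtype.ext
  apply Prod.ext
  · rw [A.tor_fst, comb_zero, A.zero]
  · rfl

lemma tor_add {p₀ : N × (Fin d → Fin m → ℝ)} (θ θ' : Fin d → ℝ) (p : A.Cb d p₀) :
    A.tor (θ + θ') p = A.tor θ (A.tor θ' p) := by
  apply Subtype.ext
  apply Prod.ext
  · rw [A.tor_fst, A.tor_fst, A.tor_fst, A.tor_snd, comb_add, A.add]
  · rfl

lemma act_comb_int {p₀ : N × (Fin d → Fin m → ℝ)} (k : Fin d → ℤ) (p : A.Cb d p₀) :
    A.act (comb (fun i => (k i : ℝ)) (p : N × (Fin d → Fin m → ℝ)).2)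
      (p : N × (Fin d → Fin m → ℝ)).1 = (p : N × (Fin d → Fin m → ℝ)).1 :=
  (((A.mem_bases p).2 _).2 ⟨k, rfl⟩).2

lemma tor_period {p₀ : N × (Fin d → Fin m → ℝ)} (k : Fin d → ℤ) (p : A.Cb d p₀) :
    A.tor (fun i => (k i : ℝ)) p = p := by
  apply Subtype.ext
  apply Prod.ext
  · rw [A.tor_fst, A.act_comb_int]
  · rfl

lemma act_basis {p₀ : N × (Fin d → Fin m → ℝ)} (i : Fin d) (p : A.Cb d p₀) :
    A.act ((p : N × (Fin d → Fin m → ℝ)).2 i)
      (p : N × (Fin d → Fin m → ℝ)).1 = (p : N × (Fin d → Fin m → ℝ)).1 := by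
  have h := A.act_comb_int (Pi.single i 1) p
  have e : comb (fun j => ((Pi.single i 1 : Fin d → ℤ) j : ℝ)) (p : N × (Fin d → Fin m → ℝ)).2 =
      (p : N × (Fin d → Fin m → ℝ)).2 i := by
    unfold comb
    rw [Finset.sum_eq_single i]
    · simp
    · intro j _ hj
      simp [hj]
    · intro h; exact absurd (Finset.mem_univ i) h
  rwa [e] at h

lemma exists_moved {p₀ : N × (Fin d → Fin m → ℝ)} (hd : 0 < d) (p : A.Cb d p₀) :
    ∃ θ, A.tor θ p ≠ p := by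
  by_contra hno
  push Not at hno
  let i : Fin d := ⟨0, hd⟩
  have hp := A.mem_bases p
  have h1 : A.X ((p : N × (Fin d → Fin m → ℝ)).2 i) (p : N × (Fin d → Fin m → ℝ)).1 = 0 := by
    apply A.X_eq_zero_of_fam
    intro t
    have h2 := congrArg (fun z : A.Cb d p₀ => (z : N × (Fin d → Fin m → ℝ)).1)
      (hno (t • Pi.single i 1))
    have h3 : comb (t • Pi.single i 1 : Fin d → ℝ) (p : N × (Fin d → Fin m → ℝ)).2 =
        t • (p : N × (Fin d → Fin m → ℝ)).2 i := by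
      unfold comb
      rw [Finset.sum_eq_single i]
      · simp
      · intro j _ hj
        simp [hj]
      · intro h; exact absurd (Finset.mem_univ i) h
    have h4 : A.act (comb (t • Pi.single i 1 : Fin d → ℝ) (p : N × (Fin d → Fin m → ℝ)).2)
      (p : N × (Fin d → Fin m → ℝ)).1 = (p : N × (Fin d → Fin m → ℝ)).1 := h2
    rwa [h3] at h4
  have h2 : (p : N × (Fin d → Fin m → ℝ)).2 i ∈ A.Lat (p : N × (Fin d → Fin m → ℝ)).1 := by
    rw [hp.2]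
    refine ⟨Pi.single i 1, ?_⟩
    rw [Finset.sum_eq_single i]
    · simp
    · intro j _ hj
      simp [hj]
    · intro h; exact absurd (Finset.mem_univ i) h
  have h3 := h2.1 _ h1
  have h4 : ∀ j, (p : N × (Fin d → Fin m → ℝ)).2 i j = 0 := by
    have h5 := (Finset.sum_eq_zero_iff_of_nonneg (fun j _ => mul_self_nonneg _)).1 h3
    intro j
    exact mul_self_eq_zero.1 (h5 j (Finset.mem_univ j))
  exact hp.1.ne_zero i (funext h4)

section smooth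

variable {p₀ : N × (Fin d → Fin m → ℝ)} [ChartedSpace E (A.Cb d p₀)]

/-- the covering map -/
def qq (p : A.Cb d p₀) : N := (p : N × (Fin d → Fin m → ℝ)).1

/-- the basis -/
def bb (p : A.Cb d p₀) : Fin d → Fin m → ℝ := (p : N × (Fin d → Fin m → ℝ)).2

/-- the linear map `comb` as a bilinear continuous map is smooth -/
lemma contMDiff_comb {F : Type*} [NormedAddCommGroup F] [NormedSpace ℝ F] {G : Type*}
    [TopologicalSpace G] {I : ModelWithCorners ℝ F G} {X : Type*} [TopologicalSpace X]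
    [ChartedSpace G X] {t : X → (Fin d → ℝ)} {b : X → (Fin d → Fin m → ℝ)}
    (ht : ContMDiff I 𝓘(ℝ, Fin d → ℝ) ∞ t) (hb : ContMDiff I 𝓘(ℝ, Fin d → Fin m → ℝ) ∞ b) :
    ContMDiff I 𝓘(ℝ, Fin m → ℝ) ∞ (fun x => comb (t x) (b x)) := by
  have h1 : ContDiff ℝ ∞ (fun z : (Fin d → ℝ) × (Fin d → Fin m → ℝ) => comb z.1 z.2) := by
    unfold comb
    fun_prop
  have h2 : ContMDiff I 𝓘(ℝ, (Fin d → ℝ) × (Fin d → Fin m → ℝ)) ∞ (fun x => (t x, b x)) :=
    ht.prodMk_space hb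
  exact h1.contMDiff.comp h2

lemma smooth_tor (hq : IsLocalDiffeomorph 𝓘(ℝ, E) 𝓘(ℝ, E) ∞ (A.qq (p₀ := p₀)))
    (hb : ContMDiff 𝓘(ℝ, E) 𝓘(ℝ, Fin d → Fin m → ℝ) ∞ (A.bb (p₀ := p₀))) :
    ContMDiff (𝓘(ℝ, Fin d → ℝ).prod 𝓘(ℝ, E)) 𝓘(ℝ, E) ∞
      (fun p : (Fin d → ℝ) × A.Cb d p₀ => A.tor p.1 p.2) := by
  have h1 : ContMDiff (𝓘(ℝ, Fin d → ℝ).prod 𝓘(ℝ, E)) 𝓘(ℝ, Fin m → ℝ) ∞
      (fun p : (Fin d → ℝ) × A.Cb d p₀ => comb p.1 (A.bb p.2)) :=
    contMDiff_comb contMDiff_fst (hb.comp contMDiff_snd)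
  have h2 : ContMDiff (𝓘(ℝ, Fin d → ℝ).prod 𝓘(ℝ, E)) 𝓘(ℝ, E) ∞
      (fun p : (Fin d → ℝ) × A.Cb d p₀ => A.act (comb p.1 (A.bb p.2)) (A.qq p.2)) :=
    A.smooth.comp (h1.prodMk (hq.contMDiff.comp contMDiff_snd))
  apply contMDiff_of_lift hq _ h2
  apply Continuous.subtype_mk
  exact h2.continuous.prodMk (hb.continuous.comp continuous_snd)

lemma smooth_tor_right (hq : IsLocalDiffeomorph 𝓘(ℝ, E) 𝓘(ℝ, E) ∞ (A.qq (p₀ := p₀)))
    (hb : ContMDiff 𝓘(ℝ, E) 𝓘(ℝ, Fin d → Fin m → ℝ) ∞ (A.bb (p₀ := p₀))) (θ : Fin d → ℝ) :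
    ContMDiff 𝓘(ℝ, E) 𝓘(ℝ, E) ∞ (A.tor (p₀ := p₀) θ) :=
  (A.smooth_tor hq hb).comp (contMDiff_const.prodMk contMDiff_id)

end smooth

end VA

section strict

open Pool.Agent.H826R2.WStmt

variable {β : (x : N) → TangentSpace 𝓘(ℝ, E) x →L[ℝ] ℝ} (A : VS β m) {d : ℕ}
  {p₀ : N × (Fin d → Fin m → ℝ)} [ChartedSpace E (A.toVA.Cb d p₀)]

/-- the form in the language of the statements -/
def toCov (β : (x : N) → TangentSpace 𝓘(ℝ, E) x →L[ℝ] ℝ) (x : N) : Cov E := β x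

lemma VS.H_sum (c : Fin d → Fin m → ℝ) (θ : Fin d → ℝ) (x : N)
    (h : ∀ i, A.H (c i) x = 0) : A.H (VA.comb θ c) x = 0 := by
  let l : (Fin m → ℝ) →ₗ[ℝ] ℝ :=
    { toFun := fun c => A.H c x
      map_add' := fun c c' => A.H_add c c' x
      map_smul' := fun r c => A.H_smul r c x }
  show l (∑ i, θ i • c i) = 0
  rw [map_sum]
  apply Finset.sum_eq_zero
  intro i _
  rw [map_smul]
  show θ i • A.H (c i) x = 0
  rw [h i, smul_zero]

lemma VS.strict_tor (hq : IsLocalDiffeomorph 𝓘(ℝ, E) 𝓘(ℝ, E) ∞ (A.toVA.qq (p₀ := p₀)))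
    (hb : ContMDiff 𝓘(ℝ, E) 𝓘(ℝ, Fin d → Fin m → ℝ) ∞ (A.toVA.bb (p₀ := p₀)))
    (θ : Fin d → ℝ) :
    pull (E := E) (A.toVA.tor (p₀ := p₀) θ) (pull (E := E) (A.toVA.qq (p₀ := p₀)) (toCov β)) =
      pull (E := E) (A.toVA.qq (p₀ := p₀)) (toCov β) := by
  rw [TH607.pull_comp (A.toVA.smooth_tor_right hq hb θ) hq.contMDiff]
  ext1 p
  refine ContinuousLinearMap.ext fun (u : E) => ?_
  have hbd : MDifferentiableAt 𝓘(ℝ, E) 𝓘(ℝ, Fin d → Fin m → ℝ) (A.toVA.bb (p₀ := p₀)) p :=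
    hb.mdifferentiableAt (by simp)
  have hqd : MDifferentiableAt 𝓘(ℝ, E) 𝓘(ℝ, E) (A.toVA.qq (p₀ := p₀)) p :=
    hq.contMDiff.mdifferentiableAt (by simp)
  -- the derivative of the basis
  let B' : Fin d → Fin m → ℝ :=
    (show Fin d → Fin m → ℝ from
      mfderiv 𝓘(ℝ, E) 𝓘(ℝ, Fin d → Fin m → ℝ) (A.toVA.bb (p₀ := p₀)) p u)
  have hlin : ∀ (L : (Fin d → Fin m → ℝ) →L[ℝ] (Fin m → ℝ)),
      MDifferentiableAt 𝓘(ℝ, E) 𝓘(ℝ, Fin m → ℝ) (fun p => L (A.toVA.bb (p₀ := p₀) p)) p ∧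
      (show Fin m → ℝ from mfderiv 𝓘(ℝ, E) 𝓘(ℝ, Fin m → ℝ)
        (fun p => L (A.toVA.bb (p₀ := p₀) p)) p u) = L B' := by
    intro L
    have h1 : HasMFDerivAt 𝓘(ℝ, Fin d → Fin m → ℝ) 𝓘(ℝ, Fin m → ℝ) L (A.toVA.bb (p₀ := p₀) p) L :=
      L.hasMFDerivAt
    have h2 := HasMFDerivAt.comp p (g := L) (f := A.toVA.bb (p₀ := p₀)) h1 hbd.hasMFDerivAt
    refine ⟨h2.mdifferentiableAt, ?_⟩
    have h3 := h2.mfderiv
    have h4 := DFunLike.congr_fun h3 u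
    exact h4
  have hper : ∀ i, A.H (B' i) (A.toVA.qq (p₀ := p₀) p) = 0 := by
    intro i
    obtain ⟨h1, h2⟩ := hlin (ContinuousLinearMap.proj i)
    have h3 := A.H_period (w := fun p => (ContinuousLinearMap.proj (R := ℝ)
      (φ := fun _ : Fin d => Fin m → ℝ) i) (A.toVA.bb (p₀ := p₀) p)) h1 hqd
      (fun p => A.toVA.act_basis i p) u
    rw [h2] at h3
    exact h3
  let L : (Fin d → Fin m → ℝ) →L[ℝ] (Fin m → ℝ) :=
    ∑ i, θ i • ContinuousLinearMap.proj (R := ℝ) (φ := fun _ : Fin d => Fin m → ℝ) i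
  have hL : ∀ b, L b = VA.comb θ b := by
    intro b
    simp [L, VA.comb]
  obtain ⟨h1, h2⟩ := hlin L
  have h3 := A.form_act (w := fun p => L (A.toVA.bb (p₀ := p₀) p)) h1 hqd u
  have h3' : A.H (L B') (A.toVA.qq (p₀ := p₀) p) = 0 := by
    rw [hL]
    exact A.H_sum B' θ _ hper
  rw [h2, h3', zero_add] at h3
  have e : (fun p => A.act (L (A.toVA.bb (p₀ := p₀) p)) (A.toVA.qq (p₀ := p₀) p)) =
      A.toVA.qq (p₀ := p₀) ∘ A.toVA.tor (p₀ := p₀) θ := by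
    ext1 p
    rw [hL]
    rfl
  have h4 : ∀ f : A.toVA.Cb d p₀ → N, f = A.toVA.qq (p₀ := p₀) ∘ A.toVA.tor (p₀ := p₀) θ →
      β (f p) (mfderiv 𝓘(ℝ, E) 𝓘(ℝ, E) f p u) =
      (show E →L[ℝ] ℝ from pull (E := E) (A.toVA.qq (p₀ := p₀) ∘ A.toVA.tor (p₀ := p₀) θ)
        (toCov β) p) u := by
    rintro _ rfl; rfl
  have h5 := h4 _ e
  rw [← h5]
  exact h3

/-- **Theorem N.** -/
theorem closed_of_const (hLOC : S_LOC.{u, v}) (hCOC : S_COC.{u, v}) (hLAT : S_LAT.{u, v})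
    (hBAS : S_BAS.{u, v}) (hCOV : S_COV.{u, v}) [T2Space N] [CompactSpace N] [ConnectedSpace N]
    (hc : H826R2.Wein.IsContact β) (κ₀ : Fin m → ℝ) (hR : H826R2.Wein.IsReeb β (A.X κ₀)) (d : ℕ)
    (hd : ∀ x, A.od x = d) (hE : Module.finrank ℝ E = 2 * d - 1) (hd3 : d ≤ 3) :
    ∃ (x : N) (T : ℝ), 0 < T ∧ A.act (T • κ₀) x = x := by
  have hM := A.mom hc hR hd hE
  -- lattices
  have hlat : ∀ y, ∃ b : Fin d → Fin m → ℝ, LinearIndependent ℝ b ∧
      ∀ s, s ∈ A.toVA.Lat y ↔ ∃ n : Fin d → ℤ, s = ∑ i, (n i : ℝ) • b i := by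
    intro y
    obtain ⟨U, σ, ε, -, hyU, hε, -, -, -, h⟩ := hLOC E N m A.toVA A.mu hM y
    have h1 := hLAT E N m A.toVA y (hCOC E N m A.toVA A.mu hM hLOC y) ⟨ε, hε, fun s => h y hyU s⟩
    have h2 : A.toVA.od y = d := hd y
    rw [h2] at h1
    exact h1
  have hbas := hBAS E N m A.toVA A.mu hM hLOC d hd hlat
  obtain ⟨y₀⟩ : Nonempty N := inferInstance
  obtain ⟨b₀, hb₀⟩ := hlat y₀
  obtain ⟨cs, hmf, hsig, hconn, Γ, gΓ, aΓ, hq, hb, hg⟩ :=
    hCOV E N d m A.toVA.Lat hbas (y₀, b₀) hb₀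
  have hq' : IsLocalDiffeomorph 𝓘(ℝ, E) 𝓘(ℝ, E) ∞ (A.toVA.qq (p₀ := (y₀, b₀))) := hq.diffeo
  have hb' : ContMDiff 𝓘(ℝ, E) 𝓘(ℝ, Fin d → Fin m → ℝ) ∞ (A.toVA.bb (p₀ := (y₀, b₀))) := hb
  -- the torus symmetry
  let TA : TH607.FxStmt.TorusSymmetry
      (pull (E := E) (A.toVA.qq (p₀ := (y₀, b₀))) (toCov β)) d :=
    { act := A.toVA.tor
      smooth := A.toVA.smooth_tor hq' hb'
      zero := A.toVA.tor_zero
      add := A.toVA.tor_add
      period := A.toVA.tor_period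
      strict := A.strict_tor hq' hb' }
  have hN : Normalises Γ TA.act := by
    intro γ
    obtain ⟨g, hg'⟩ := hg γ⁻¹
    obtain ⟨g₂, hg₂⟩ := hg γ
    refine ⟨g.transpose, fun θ p => ?_⟩
    have hqγ : ∀ p : A.toVA.Cb d (y₀, b₀), A.toVA.qq (γ • p) = A.toVA.qq p := fun p =>
      ((hq.fibre p (γ • p)).2 ⟨γ, rfl⟩).symm
    have h1 : VA.comb (fun i => ∑ j, (g.transpose i j : ℝ) * θ j) (A.toVA.bb (γ • p)) =
        VA.comb θ (A.toVA.bb p) := by
      have h2 : ∀ i, A.toVA.bb p i = ∑ j, (g i j : ℝ) • A.toVA.bb (γ • p) j := by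
        intro i
        have h3 := hg' (γ • p) i
        rw [inv_smul_smul] at h3
        exact h3
      unfold VA.comb
      simp only [Finset.sum_smul, Matrix.transpose_apply]
      rw [Finset.sum_comm]
      refine Finset.sum_congr rfl fun i _ => ?_
      rw [h2 i, Finset.smul_sum]
      refine Finset.sum_congr rfl fun j _ => ?_
      rw [smul_smul, mul_comm]
    apply Subtype.ext
    apply Prod.ext
    · show A.toVA.qq (γ • A.toVA.tor θ p) = A.act (VA.comb _ (A.toVA.bb (γ • p)))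
        (A.toVA.qq (γ • p))
      rw [h1, hqγ, hqγ]
      rfl
    · show A.toVA.bb (γ • A.toVA.tor θ p) = A.toVA.bb (γ • p)
      ext1 i
      have h3 := hg₂ (A.toVA.tor θ p) i
      have h4 := hg₂ p i
      exact h3.trans h4.symm
  have hRpos : 0 < d := by
    rcases Nat.eq_zero_or_pos d with h | h
    · exfalso
      have h1 := A.finrank_dHL hc hR y₀
      rw [hd y₀, h] at h1
      omega
    · exact h
  have hcon : H826R2.WStmt.IsContact (toCov β) := by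
    refine ⟨hc.smooth, ?_, fun x u hu hv => hc.nondeg x u hu hv⟩
    intro x
    by_contra hno
    push Not at hno
    apply hc.ne_zero x
    exact ContinuousLinearMap.ext fun v => hno v
  have hreeb : H826R2.WStmt.IsReeb (toCov β) (fun x => (A.X κ₀ x : E)) := ⟨hR.unit, fun x v => hR.kernel x v⟩
  have hcomp := TH607.FxStmt.exists_periodic_five_all (M := N) (by omega) (toCov β) hcon _ hreeb
    (A.toVA.qq (p₀ := (y₀, b₀))) hq TA hN (by
      obtain ⟨p⟩ : Nonempty (A.toVA.Cb d (y₀, b₀)) := inferInstance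
      obtain ⟨θ, hθ⟩ := A.toVA.exists_moved hRpos p
      exact ⟨θ, p, hθ⟩)
  obtain ⟨c, T, hT, hint, hper⟩ := hcomp
  refine ⟨c 0, T, hT, ?_⟩
  have : IsManifold 𝓘(ℝ, E) 1 N := IsManifold.of_le (n := ∞) (by simp)
  have h2 : (fun t : ℝ => A.fam κ₀ (t, c 0)) = c :=
    isMIntegralCurve_Ioo_eq_of_contMDiff_boundaryless (t₀ := 0)
      ((A.smooth_X κ₀).of_le (by simp)) (A.integral κ₀ (c 0)) hint (A.fam_zero κ₀ (c 0))
  have h3 : A.act (T • κ₀) (c 0) = c T := congrFun h2 T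
  have h4 := hper 0
  rw [zero_add] at h4
  rw [h3, h4]

end strict

end Pool.Agent.J4H20.CI
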