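import Mathlib

/-! Project CI, part PI: the deck group of a connected regular covering is a quotient of the
fundamental group. -/

open scoped Topology
open Set

noncomputable section

namespace Pool.Agent.J4H20.CI

universe v

/-- **(PI)** `q : P → N` surjective local homeomorphism, `P` path connected, the group `Γ` acts
freely and by continuous maps on `P` and its orbits are the fibres of `q`: then `Γ` is a quotient of
the fundamental group of `N`.

Proof. `q` is a covering map: if `q` is injective on the open set `U ∋ x` then `γ U ∩ U = ∅` for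
`γ ≠ 1` (freeness), and `q⁻¹(q U)` is the disjoint union of the `γ U` (Mathlib:
`IsQuotientCoveringMap`, or `IsCoveringMap.mk`, or the quotient by a properly discontinuous free
action). For a loop `ℓ` at `q p₀` the lift starting at `p₀` (Mathlib: `IsCoveringMap.liftPath`,
`monodromy`, `Path.Homotopic` invariance of the end point) ends at `Ψ(ℓ) • p₀` for a unique `Ψ(ℓ)`.
The lift of `ℓ₂` at `Ψ(ℓ₁) • p₀` is `Ψ(ℓ₁)` applied to the lift at `p₀`, so `Ψ(ℓ₁ ℓ₂) = Ψ(ℓ₁) Ψ(ℓ₂)`
(`ℓ₁` first). Surjective: the image of a path from `p₀` to `γ • p₀` is a loop. If the order of the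
multiplication in `FundamentalGroup` (automorphisms in a groupoid) is the opposite one, use
`ℓ ↦ Ψ(ℓ)⁻¹`. -/
def S_PI : Prop :=
  ∀ (P : Type v) [TopologicalSpace P] [PathConnectedSpace P] (N : Type v) [TopologicalSpace N]
    (Γ : Type v) [Group Γ] [MulAction Γ P] (q : P → N) (_ : IsLocalHomeomorph q)
    (_ : Function.Surjective q) (_ : ∀ γ : Γ, Continuous (fun p : P => γ • p))
    (_ : ∀ x y : P, q x = q y ↔ ∃ γ : Γ, γ • x = y)
    (_ : ∀ (γ : Γ) (x : P), γ • x = x → γ = 1) (p₀ : P),
    ∃ Φ : FundamentalGroup N (q p₀) →* Γ, Function.Surjective Φ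

end Pool.Agent.J4H20.CI
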