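import Mathlib
import Pool.Agent.J4H20.CI.FinN
import Pool.Agent.J4H20.CI.Stm2
import Pool.Agent.TH607.Fx.RedS
import Pool.Agent.J4H20.CI.Defs

/-! Virtually solvable fundamental group: orbits of any constant dimension. -/

open scoped Topology ContDiff Manifold
open Set Metric Pool.Agent.Helper186 Pool.Agent.H826R2.WStmt

noncomputable section

namespace Pool.Agent.J4H20.CI

set_option linter.unusedSectionVars false

universe u v

variable {E : Type u} [NormedAddCommGroup E] [NormedSpace ℝ E] [FiniteDimensional ℝ E]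
  {N : Type v} [TopologicalSpace N] [ChartedSpace E N] [IsManifold 𝓘(ℝ, E) ∞ N] {m : ℕ}
  {β : (x : N) → TangentSpace 𝓘(ℝ, E) x →L[ℝ] ℝ} (A : VS β m)

/-- **Theorem N, virtually solvable fundamental group.** -/
theorem closed_of_solvable (hLOC : S_LOC.{u, v}) (hCOC : S_COC.{u, v}) (hLAT : S_LAT.{u, v})
    (hBAS : S_BAS.{u, v}) (hCOV : S_COV.{u, v}) (hPI : S_PI.{v})
    [T2Space N] [CompactSpace N] [ConnectedSpace N]
    (hc : H826R2.Wein.IsContact β) (κ₀ : Fin m → ℝ) (hR : H826R2.Wein.IsReeb β (A.X κ₀)) (d : ℕ)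
    (hd : ∀ x, A.od x = d) (hE : Module.finrank ℝ E = 2 * d - 1)
    (y₀ : N) (hsol : CIStmt.VirtuallySolvable (FundamentalGroup N y₀)) :
    ∃ (x : N) (T : ℝ), 0 < T ∧ A.act (T • κ₀) x = x := by
  have hM := A.mom hc hR hd hE
  -- lattices
  have hlat : ∀ y, ∃ b : Fin d → Fin m → ℝ, LinearIndependent ℝ b ∧
      ∀ s, s ∈ A.toVA.Lat y ↔ ∃ n : Fin d → ℤ, s = ∑ i, (n i : ℝ) • b i := by
    intro y
    obtain ⟨U, σ, ε, -, hyU, hε, -, -, -, h⟩ := hLOC E N m A.toVA A.mu hM y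
    have h1 := hLAT E N m A.toVA y (hCOC E N m A.toVA A.mu hM hLOC y) ⟨ε, hε, fun s => h y hyU s⟩
    have h2 : A.toVA.od y = d := hd y
    rw [h2] at h1
    exact h1
  have hbas := hBAS E N m A.toVA A.mu hM hLOC d hd hlat
  obtain ⟨b₀, hb₀⟩ := hlat y₀
  obtain ⟨cs, hmf, hsig, hconn, Γ, gΓ, aΓ, hq, hb, hg⟩ :=
    hCOV E N d m A.toVA.Lat hbas (y₀, b₀) hb₀
  have hq' : IsLocalDiffeomorph 𝓘(ℝ, E) 𝓘(ℝ, E) ∞ (A.toVA.qq (p₀ := (y₀, b₀))) := hq.diffeo
  have hb' : ContMDiff 𝓘(ℝ, E) 𝓘(ℝ, Fin d → Fin m → ℝ) ∞ (A.toVA.bb (p₀ := (y₀, b₀))) := hb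
  let TA : TH607.FxStmt.TorusSymmetry
      (pull (E := E) (A.toVA.qq (p₀ := (y₀, b₀))) (toCov β)) d :=
    { act := A.toVA.tor
      smooth := A.toVA.smooth_tor hq' hb'
      zero := A.toVA.tor_zero
      add := A.toVA.tor_add
      period := A.toVA.tor_period
      strict := A.strict_tor hq' hb' }
  have hqγ : ∀ (γ : Γ) (p : A.toVA.Cb d (y₀, b₀)), A.toVA.qq (γ • p) = A.toVA.qq p := fun γ p =>
    ((hq.fibre p (γ • p)).2 ⟨γ, rfl⟩).symm
  -- the group of deck transformations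
  let Γ' : Subgroup (Equiv.Perm (A.toVA.Cb d (y₀, b₀))) :=
    (MulAction.toPermHom Γ (A.toVA.Cb d (y₀, b₀))).range
  have hΓ' : ∀ g : Γ', ∃ γ : Γ, ∀ p : A.toVA.Cb d (y₀, b₀), g • p = γ • p := by
    rintro ⟨_, γ, rfl⟩
    exact ⟨γ, fun p => rfl⟩
  have hΓ'' : ∀ γ : Γ, ∃ g : Γ', ∀ p : A.toVA.Cb d (y₀, b₀), g • p = γ • p := fun γ =>
    ⟨⟨_, γ, rfl⟩, fun p => rfl⟩
  have hquot : IsQuotientMap E (A.toVA.qq (p₀ := (y₀, b₀))) Γ' := by
    refine ⟨hq.surj, hq.diffeo, fun g => ?_, fun x y => ?_⟩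
    · obtain ⟨γ, hγ⟩ := hΓ' g
      have e : (fun x : A.toVA.Cb d (y₀, b₀) => g • x) = fun x => γ • x := by
        ext1 x; exact hγ x
      rw [e]
      exact hq.smooth γ
    · rw [show A.toVA.qq x = A.toVA.qq y ↔ _ from hq.fibre x y]
      constructor
      · rintro ⟨γ, hγ⟩
        obtain ⟨g, hg⟩ := hΓ'' γ
        exact ⟨g, (hg x).trans hγ⟩
      · rintro ⟨g, hg⟩
        obtain ⟨γ, hγ⟩ := hΓ' g
        exact ⟨γ, (hγ x).symm.trans hg⟩
  have hfree : ∀ (g : Γ') (x : A.toVA.Cb d (y₀, b₀)), g • x = x → g = 1 := by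
    intro g x hx
    obtain ⟨γ, hγ⟩ := hΓ' g
    obtain ⟨c, hc'⟩ := hg γ
    have h1 : ∀ i, A.toVA.bb x i = ∑ j, (c i j : ℝ) • A.toVA.bb x j := by
      intro i
      have h2 := hc' x i
      rw [← hγ, hx] at h2
      exact h2
    have hind : LinearIndependent ℝ (A.toVA.bb x) := (A.toVA.mem_bases x).1
    have h2 : ∀ i j, (c i j : ℝ) = if i = j then 1 else 0 := by
      intro i j
      have h3 : ∑ j, ((c i j : ℝ) - if i = j then 1 else 0) • A.toVA.bb x j = 0 := by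
        simp only [sub_smul, Finset.sum_sub_distrib, ← h1 i, ite_smul, one_smul, zero_smul,
          Finset.sum_ite_eq, Finset.mem_univ, if_true, sub_self]
      have h4 := (Fintype.linearIndependent_iff.1 hind) _ h3 j
      linarith
    have h3 : ∀ p : A.toVA.Cb d (y₀, b₀), γ • p = p := by
      intro p
      apply Subtype.ext
      apply Prod.ext
      · exact hqγ γ p
      · ext1 i
        have h4 := hc' p i
        simp only [h2, ite_smul, one_smul, zero_smul, Finset.sum_ite_eq, Finset.mem_univ,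
          if_true] at h4
        exact h4
    apply Subtype.ext
    apply Equiv.ext
    intro p
    exact (hγ p).trans (h3 p)
  have hNΓ : Normalises Γ' TA.act := by
    intro g'
    obtain ⟨γ, hγ⟩ := hΓ' g'
    obtain ⟨g, hg'⟩ := hg γ⁻¹
    obtain ⟨g₂, hg₂⟩ := hg γ
    refine ⟨g.transpose, fun θ p => ?_⟩
    rw [hγ, hγ]
    have h1 : VA.comb (fun i => ∑ j, (g.transpose i j : ℝ) * θ j) (A.toVA.bb (γ • p)) =
        VA.comb θ (A.toVA.bb p) := by
      have h2 : ∀ i, A.toVA.bb p i = ∑ j, (g i j : ℝ) • A.toVA.bb (γ • p) j := by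
        intro i
        have h3 := hg' (γ • p) i
        rw [inv_smul_smul] at h3
        exact h3
      unfold VA.comb
      simp only [Finset.sum_smul, Matrix.transpose_apply]
      rw [Finset.sum_comm]
      refine Finset.sum_congr rfl fun i _ => ?_
      rw [h2 i, Finset.smul_sum]
      refine Finset.sum_congr rfl fun j _ => ?_
      rw [smul_smul, mul_comm]
    apply Subtype.ext
    apply Prod.ext
    · show A.toVA.qq (γ • A.toVA.tor θ p) = A.act (VA.comb _ (A.toVA.bb (γ • p)))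
        (A.toVA.qq (γ • p))
      rw [h1, hqγ, hqγ]
      rfl
    · show A.toVA.bb (γ • A.toVA.tor θ p) = A.toVA.bb (γ • p)
      ext1 i
      have h3 := hg₂ (A.toVA.tor θ p) i
      have h4 := hg₂ p i
      exact h3.trans h4.symm
  -- the monodromy is virtually solvable
  have hp₀ : ((y₀, b₀) : N × (Fin d → Fin m → ℝ)) ∈ A.toVA.Cb d (y₀, b₀) :=
    mem_connectedComponentIn hb₀
  have : LocallyPathConnectedSpace (A.toVA.Cb d (y₀, b₀)) :=
    ChartedSpace.locallyPathConnectedSpace E _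
  have : PathConnectedSpace (A.toVA.Cb d (y₀, b₀)) :=
    pathConnectedSpace_iff_connectedSpace.2 inferInstance
  obtain ⟨Φ, hΦ⟩ := hPI (A.toVA.Cb d (y₀, b₀)) N Γ' (A.toVA.qq (p₀ := (y₀, b₀)))
    hq'.isLocalHomeomorph hq.surj (fun g => (hquot.smooth g).continuous) hquot.fibre hfree
    ⟨(y₀, b₀), hp₀⟩
  have hmono : SolvableMonodromy Γ' TA.act := by
    obtain ⟨H, hH, hHs⟩ := hsol
    let H' : Subgroup (FundamentalGroup N (A.toVA.qq (p₀ := (y₀, b₀)) ⟨(y₀, b₀), hp₀⟩)) := H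
    have hH' : H'.FiniteIndex := hH
    have hHs' : Group.IsSolvable H' := hHs
    refine ⟨H'.map Φ, ⟨fun h0 => ?_⟩, ?_⟩
    · have h1 := H'.index_map_dvd hΦ
      rw [h0, zero_dvd_iff] at h1
      exact hH'.index_ne_zero h1
    · have h1 : Group.IsSolvable (H'.map Φ) :=
        @Group.isSolvable_of_surjective _ _ _ _ (Φ.subgroupMap H')
          (Φ.subgroupMap_surjective H') hHs'
      obtain ⟨n, hn⟩ := h1.solvable
      refine ⟨n, fun g hg => ?_⟩
      rw [hn, Subgroup.mem_bot] at hg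
      intro θ x
      rw [hg]
      rfl
  have hRpos : 0 < d := by
    rcases Nat.eq_zero_or_pos d with h | h
    · exfalso
      have h1 := A.finrank_dHL hc hR y₀
      rw [hd y₀, h] at h1
      omega
    · exact h
  have hcon : IsContact (toCov β) := by
    refine ⟨hc.smooth, ?_, fun x u hu hv => hc.nondeg x u hu hv⟩
    intro x
    by_contra hno
    push Not at hno
    apply hc.ne_zero x
    exact ContinuousLinearMap.ext fun v => hno v
  have hreeb : IsReeb (toCov β) (fun x => (A.X κ₀ x : E)) := ⟨hR.unit, fun x v => hR.kernel x v⟩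
  obtain ⟨c, T, hT, hint, hper⟩ := TH607.FxStmt.exists_periodic_solvable_all (M := N) (toCov β)
    hcon _ hreeb (A.toVA.qq (p₀ := (y₀, b₀))) hquot TA hNΓ (by
      obtain ⟨θ, hθ⟩ := A.toVA.exists_moved hRpos ⟨(y₀, b₀), hp₀⟩
      exact ⟨θ, _, hθ⟩) hmono
  refine ⟨c 0, T, hT, ?_⟩
  have : IsManifold 𝓘(ℝ, E) 1 N := IsManifold.of_le (n := ∞) (by simp)
  have h2 : (fun t : ℝ => A.fam κ₀ (t, c 0)) = c :=
    isMIntegralCurve_Ioo_eq_of_contMDiff_boundaryless (t₀ := 0)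
      ((A.smooth_X κ₀).of_le (by simp)) (A.integral κ₀ (c 0)) hint (A.fam_zero κ₀ (c 0))
  have h3 : A.act (T • κ₀) (c 0) = c T := congrFun h2 T
  have h4 := hper 0
  rw [zero_add] at h4
  rw [h3, h4]

end Pool.Agent.J4H20.CI
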