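import Mathlib
import Pool.Agent.J4H64.CI.Nc

/-! The contact submanifold of lowest rank, with its subspace topology (proof of helper64). -/

open scoped Topology ContDiff Manifold
open Set Metric Pool.Agent.Helper186 Pool.Agent.H826R2.Wein Pool.Agent.J4H64.CI

noncomputable section

namespace Pool.Agent.J4H20.CI

set_option linter.unusedSectionVars false

universe u v

/-- as `S_NC`, the manifold is `C` with the subspace topology -/
theorem nc_sub (E : Type u) [NormedAddCommGroup E] [NormedSpace ℝ E] [FiniteDimensional ℝ E]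
    (M : Type v) [TopologicalSpace M] [ChartedSpace E M] [IsManifold 𝓘(ℝ, E) ∞ M] [T2Space M]
    (β : (x : M) → TangentSpace 𝓘(ℝ, E) x →L[ℝ] ℝ) (hc : IsContact β)
    (m : ℕ) (A : VS β m) (κ₀ : Fin m → ℝ) (hR : IsReeb β (A.X κ₀))
    (d : ℕ) (C : Set M)
    (hinv : ∀ θ, ∀ x ∈ C, A.act θ x ∈ C) (hod : ∀ x ∈ C, A.od x = d)
    (S : TH607.Slices (E := E) (Fin (2 * d - 1) → ℝ) C)
    (hT : ∀ (a : C) (u : E), (S.s a).j ((S.s a).p (mfderiv 𝓘(ℝ, E) 𝓘(ℝ, E) (S.s a).φ (a : M) u)) =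
        (mfderiv 𝓘(ℝ, E) 𝓘(ℝ, E) (S.s a).φ (a : M) u : E) →
      (∀ c, dForm 𝓘(ℝ, E) (A.H c) (a : M) u = 0) → ∃ c, (A.X c (a : M) : E) = u) :
    ∃ (_ : ChartedSpace (Fin (2 * d - 1) → ℝ) C)
      (_ : IsManifold 𝓘(ℝ, Fin (2 * d - 1) → ℝ) ∞ C)
      (γ : (x : C) → TangentSpace 𝓘(ℝ, Fin (2 * d - 1) → ℝ) x →L[ℝ] ℝ) (B : VS γ m),
      (∀ θ x, (B.act θ x : M) = A.act θ (x : M)) ∧
      IsContact γ ∧ IsReeb γ (B.X κ₀) ∧ ∀ x, B.od x = d := by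
  let cs : ChartedSpace (Fin (2 * d - 1) → ℝ) C := S.charted
  have hM : IsManifold 𝓘(ℝ, Fin (2 * d - 1) → ℝ) ∞ C := S.isManifold
  refine ⟨cs, hM,
    pullForm 𝓘(ℝ, E) 𝓘(ℝ, Fin (2 * d - 1) → ℝ) (Subtype.val : C → M) β,
    B A S rfl hinv, fun θ x => rfl, ?_, ?_, ?_⟩
  · exact contactB hc A hR S rfl hinv d (by simp) hod hT
  · exact reebB hc A hR S rfl hinv
  · intro x
    rw [odB A S rfl hinv x]
    exact hod x x.2

end Pool.Agent.J4H20.CI
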