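import Mathlib
import Pool.Agent.J4H20.CI.Defs
import Pool.Agent.J4H20.CI.FinS
import Pool.Agent.J4H20.CI.Nc2

/-! Closed Reeb orbits for contact forms with commuting first integrals: the assembly. -/

open scoped Topology ContDiff Manifold
open Set Metric Pool.Agent.Helper186 Pool.Agent.H826R2.Wein

noncomputable section

namespace Pool.Agent.J4H20.CI

set_option linter.unusedSectionVars false

universe u v

variable {E : Type u} [NormedAddCommGroup E] [NormedSpace ℝ E] [FiniteDimensional ℝ E]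
  {M : Type v} [TopologicalSpace M] [ChartedSpace E M] [IsManifold 𝓘(ℝ, E) ∞ M] {m : ℕ}

namespace VA

variable (A : VA E M m)

lemma od_act (θ : Fin m → ℝ) (x : M) : A.od (A.act θ x) = A.od x := by
  have h1 : LinearMap.ker (A.XL (A.act θ x)) = LinearMap.ker (A.XL x) := by
    ext c
    rw [LinearMap.mem_ker, LinearMap.mem_ker]
    exact A.X_act_eq_zero_iff
  have h2 := LinearMap.finrank_range_add_finrank_ker (A.XL (A.act θ x))
  have h3 := LinearMap.finrank_range_add_finrank_ker (A.XL x)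
  rw [h1] at h2
  unfold VA.od
  omega

/-- the component -/
def low (d : ℕ) (x₀ : M) : Set M := connectedComponentIn {x | A.od x ≤ d} x₀

lemma low_act {d : ℕ} {x₀ x : M} (hx : x ∈ A.low d x₀) (θ : Fin m → ℝ) :
    A.act θ x ∈ A.low d x₀ := by
  have h0 : x ∈ {x | A.od x ≤ d} := connectedComponentIn_subset _ _ hx
  have h1 : A.low d x₀ = connectedComponentIn {x | A.od x ≤ d} x := connectedComponentIn_eq hx
  have hpre : IsPreconnected ((fun t : ℝ => A.act (t • θ) x) '' univ) := by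
    apply isPreconnected_univ.image
    exact ((A.smooth_left x).continuous.comp (by fun_prop)).continuousOn
  have hsub : ((fun t : ℝ => A.act (t • θ) x) '' univ) ⊆ {x | A.od x ≤ d} := by
    rintro _ ⟨t, -, rfl⟩
    show A.od (A.act (t • θ) x) ≤ d
    rw [A.od_act]
    exact h0
  have h4 : ((fun t : ℝ => A.act (t • θ) x) '' univ) ⊆ A.low d x₀ := by
    refine (hpre.subset_connectedComponentIn (x := x) ?_ hsub).trans h1.symm.subset
    refine ⟨0, mem_univ _, ?_⟩
    simp only [zero_smul, A.zero]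
  exact h4 ⟨1, mem_univ _, by simp only [one_smul]⟩

end VA

namespace VS

variable {β : (x : M) → TangentSpace 𝓘(ℝ, E) x →L[ℝ] ℝ} (A : VS β m)

/-- **The theorem for one component.** -/
theorem closed_in_low (hNRM : S_NRM.{u, v}) (hCC : S_CC.{u, v})
    (hLOC : S_LOC.{0, v}) (hCOC : S_COC.{0, v}) (hLAT : S_LAT.{0, v})
    (hBAS : S_BAS.{0, v}) (hCOV : S_COV.{0, v}) (hPI : S_PI.{v}) [T2Space M]
    (hc : IsContact β) (κ₀ : Fin m → ℝ) (hR : IsReeb β (A.X κ₀))
    (d : ℕ) (x₀ : M) (hx₀ : A.od x₀ ≤ d)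
    (hd3 : d ≤ 3 ∨ ∃ x, CIStmt.VirtuallySolvable (FundamentalGroup (A.toVA.low d x₀) x))
    (hK : IsCompact (A.toVA.low d x₀))
    (hnd : ∀ x ∈ A.toVA.low d x₀, A.od x = d ∧ A.WN x) :
    ∃ (x : M) (T : ℝ), 0 < T ∧ A.act (T • κ₀) x = x ∧ x ∈ A.toVA.low d x₀ := by
  have hs : ∀ a : A.toVA.low d x₀, ∃ s : TH607.SliceAt (E := E) (Fin (2 * d - 1) → ℝ)
      (A.toVA.low d x₀) (a : M), ∀ u : E, s.j (s.p (mfderiv 𝓘(ℝ, E) 𝓘(ℝ, E) s.φ (a : M) u)) =
        (mfderiv 𝓘(ℝ, E) 𝓘(ℝ, E) s.φ (a : M) u : E) →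
      (∀ c, dForm 𝓘(ℝ, E) (A.H c) (a : M) u = 0) → ∃ c, (A.X c (a : M) : E) = u := by
    intro a
    obtain ⟨h1, h2⟩ := hnd a a.2
    obtain ⟨s, hs⟩ := hNRM E M β hc m A κ₀ hR d a h1 h2
    obtain ⟨s', hj, hp, hφ⟩ := hCC E M (2 * d - 1) {x | A.od x ≤ d} x₀ a a.2 s
    refine ⟨s', fun u hu hu' => hs u ?_ hu'⟩
    rw [hj, hp, hφ] at hu
    exact hu
  choose s hs using hs
  obtain ⟨cN, mN, γ, B, hBA, hγ, hγR, hBd⟩ :=
    nc_sub E M β hc m A κ₀ hR d (A.toVA.low d x₀)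
      (fun θ x hx => A.toVA.low_act hx θ) (fun x hx => (hnd x hx).1) ⟨s⟩ hs
  have : CompactSpace (A.toVA.low d x₀) := isCompact_iff_compactSpace.1 hK
  have : ConnectedSpace (A.toVA.low d x₀) := isConnected_iff_connectedSpace.1
    ⟨⟨x₀, mem_connectedComponentIn hx₀⟩, isPreconnected_connectedComponentIn⟩
  have hfin : Module.finrank ℝ (Fin (2 * d - 1) → ℝ) = 2 * d - 1 := by
    rw [Module.finrank_fin_fun]
  obtain ⟨x, T, hT, hx⟩ : ∃ (x : A.toVA.low d x₀) (T : ℝ), 0 < T ∧ B.act (T • κ₀) x = x := by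
    rcases hd3 with hd3 | ⟨y, hy⟩
    · exact closed_of_const B hLOC hCOC hLAT hBAS hCOV hγ κ₀ hγR d hBd hfin hd3
    · exact closed_of_solvable B hLOC hCOC hLAT hBAS hCOV hPI hγ κ₀ hγR d hBd hfin y hy
  refine ⟨x, T, hT, ?_, x.2⟩
  rw [← hBA, hx]

/-- few integrals: the lowest orbit dimension is smaller than the number of directions -/
lemma exists_small [CompactSpace M] [Nonempty M] (hc : IsContact β) (κ₀ : Fin m → ℝ)
    (hR : IsReeb β (A.X κ₀)) (hm : 2 ≤ m) : ∃ x, A.od x < m := by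
  have hc' : ∃ c : Fin m → ℝ, ∀ r : ℝ, c - r • κ₀ ≠ 0 := by
    by_contra hno
    push Not at hno
    have h1 : (⊤ : Submodule ℝ (Fin m → ℝ)) ≤ Submodule.span ℝ {κ₀} := by
      intro c _
      rw [Submodule.mem_span_singleton]
      obtain ⟨r, hr⟩ := hno c
      exact ⟨r, (sub_eq_zero.1 hr).symm⟩
    have h2 := Submodule.finrank_mono h1
    rw [finrank_top, Module.finrank_fin_fun] at h2
    have h3 := finrank_span_le_card (R := ℝ) ({κ₀} : Set (Fin m → ℝ))
    rw [Set.toFinset_singleton, Finset.card_singleton] at h3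
    omega
  obtain ⟨c, hc'⟩ := hc'
  obtain ⟨x, hx⟩ : ∃ x, ∀ y, A.H c y ≤ A.H c x := by
    obtain ⟨x, -, hx⟩ := isCompact_univ.exists_isMaxOn (univ_nonempty (α := M))
      (A.smooth_H hc.smooth c).continuous.continuousOn
    exact ⟨x, fun y => hx (mem_univ y)⟩
  refine ⟨x, ?_⟩
  have h1 : dForm 𝓘(ℝ, E) (A.H c) x = 0 := by
    refine ContinuousLinearMap.ext fun u => ?_
    have h2 := mfderiv_eq_fderiv_chart (I := 𝓘(ℝ, E)) (g := A.H c) (x₀ := x)
      ((A.smooth_H hc.smooth c).mdifferentiableAt (by simp)) u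
    have h3 : IsLocalMax (A.H c ∘ (extChartAt 𝓘(ℝ, E) x).symm) (extChartAt 𝓘(ℝ, E) x x) := by
      refine Filter.Eventually.of_forall fun y => ?_
      simp only [Function.comp, extChartAt_to_inv]
      exact hx _
    rw [h3.fderiv_eq_zero] at h2
    exact h2
  have h2 := A.X_eq_of_crit hc hR h1
  have h3 : A.XL x (c - A.H c x • κ₀) = 0 := by
    rw [map_sub, map_smul]
    show A.X c x - A.H c x • A.X κ₀ x = 0
    rw [h2, sub_self]
  have h4 := LinearMap.finrank_range_add_finrank_ker (A.XL x)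
  rw [Module.finrank_fin_fun] at h4
  have h5 : 0 < Module.finrank ℝ (LinearMap.ker (A.XL x)) := by
    rw [Module.finrank_pos_iff_exists_ne_zero]
    exact ⟨⟨_, LinearMap.mem_ker.2 h3⟩, fun h => hc' _ (congrArg Subtype.val h)⟩
  unfold VA.od
  omega

end VS

end Pool.Agent.J4H20.CI
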