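import Mathlib
import Pool.Agent.J4H20.CI.Stm

/-! Semicontinuity of the orbit dimension. -/

open scoped Topology ContDiff Manifold
open Set Metric Bundle Pool.Agent.Helper186 Pool.Agent.H826R2.Wein

noncomputable section

namespace Pool.Agent.J4H20.CI

set_option linter.unusedSectionVars false

universe u v

variable {E : Type u} [NormedAddCommGroup E] [NormedSpace ℝ E] [FiniteDimensional ℝ E]
  {M : Type v} [TopologicalSpace M] [ChartedSpace E M] [IsManifold 𝓘(ℝ, E) ∞ M] {m : ℕ}

namespace VA

variable (A : VA E M m)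

lemma od_lower (x : M) : ∀ᶠ y in 𝓝 x, A.od x ≤ A.od y := by
  let r := A.od x
  let b : Module.Basis (Fin r) ℝ (LinearMap.range (A.XL x)) :=
    Module.finBasisOfFinrankEq ℝ _ rfl
  choose c hc using fun i => LinearMap.mem_range.1 (b i).2
  let e := trivializationAt E (TangentSpace 𝓘(ℝ, E)) x
  let φ : M → Fin r → E := fun y i => (e ⟨y, A.X (c i) y⟩).2
  have hcont : ContinuousAt φ x := by
    rw [continuousAt_pi]
    intro i
    have h1 := (A.smooth_X (c i)) x
    rw [Bundle.contMDiffAt_totalSpace] at h1
    exact h1.2.continuousAt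
  have hx : x ∈ e.baseSet := FiberBundle.mem_baseSet_trivializationAt' x
  have hφ : ∀ y ∈ e.baseSet, ∀ i, φ y i = e.continuousLinearMapAt ℝ y (A.X (c i) y) := by
    intro y hy i
    exact (Trivialization.continuousLinearMapAt_apply_of_mem (R := ℝ) e hy _).symm
  have hind : LinearIndependent ℝ (φ x) := by
    have h1 : LinearIndependent ℝ (fun i => A.XL x (c i)) := by
      have h2 : (fun i => A.XL x (c i)) = fun i => ((b i : LinearMap.range (A.XL x)) : E) := by
        ext1 i; exact hc i
      rw [h2]
      exact b.linearIndependent.map' (LinearMap.range (A.XL x)).subtype (Submodule.ker_subtype _)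
    let L' : E →ₗ[ℝ] E := (show E →L[ℝ] E from e.continuousLinearMapAt ℝ x).toLinearMap
    have hker : LinearMap.ker L' = ⊥ := by
      rw [LinearMap.ker_eq_bot]
      intro u u' huu
      have h3 := e.symmL_continuousLinearMapAt (R := ℝ) hx (show TangentSpace 𝓘(ℝ, E) x from u)
      have h4 := e.symmL_continuousLinearMapAt (R := ℝ) hx (show TangentSpace 𝓘(ℝ, E) x from u')
      have h5 : e.continuousLinearMapAt ℝ x (show TangentSpace 𝓘(ℝ, E) x from u) =
        e.continuousLinearMapAt ℝ x (show TangentSpace 𝓘(ℝ, E) x from u') := huu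
      rw [h5, h4] at h3
      exact h3.symm
    have h3 := h1.map' L' hker
    have h4 : (L' ∘ fun i => A.XL x (c i)) = φ x := by
      ext1 i
      exact (hφ x hx i).symm
    rw [← h4]
    exact h3
  have hev := hcont.eventually (isOpen_setOfPred_linearIndependent.mem_nhds hind)
  filter_upwards [hev, e.open_baseSet.mem_nhds hx] with y hy hyb
  have hy' : LinearIndependent ℝ (φ y) := hy
  have h1 : LinearIndependent ℝ (fun i => A.XL y (c i)) := by
    let L' : E →ₗ[ℝ] E := (show E →L[ℝ] E from e.continuousLinearMapAt ℝ y).toLinearMap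
    apply LinearIndependent.of_comp L'
    have h2 : (L' ∘ fun i => A.XL y (c i)) = φ y := by
      ext1 i
      exact (hφ y hyb i).symm
    rw [h2]
    exact hy'
  have h2 : LinearIndependent ℝ (fun i => (⟨A.XL y (c i), ⟨c i, rfl⟩⟩ : LinearMap.range (A.XL y))) := by
    apply LinearIndependent.of_comp (LinearMap.range (A.XL y)).subtype
    exact h1
  have h3 := h2.fintype_card_le_finrank
  rw [Fintype.card_fin] at h3
  exact h3

lemma isClosed_od_le (d : ℕ) : IsClosed {x | A.od x ≤ d} := by
  rw [← isOpen_compl_iff, isOpen_iff_mem_nhds]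
  intro x hx
  have hx' : ¬ A.od x ≤ d := hx
  filter_upwards [A.od_lower x] with y hy
  show ¬ A.od y ≤ d
  omega

end VA

end Pool.Agent.J4H20.CI
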