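import Mathlib
import Pool.Agent.J4H20.CI.Main
import Pool.Agent.J4H20.CI.Semi
import Pool.Agent.H826R2.Wein.Bridge

/-! Closed Reeb orbits for contact forms with commuting first integrals: the statement. -/

open scoped Topology ContDiff Manifold
open Set Metric Pool.Agent.H826R2.WStmt Pool.Agent.TH607.FxStmt Pool.Agent.J4H20.CIStmt

noncomputable section

namespace Pool.Agent.J4H20.CI

set_option linter.unusedSectionVars false

universe u v

variable {E : Type u} [NormedAddCommGroup E] [NormedSpace ℝ E] [FiniteDimensional ℝ E]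
  {M : Type v} [TopologicalSpace M] [ChartedSpace E M] [IsManifold 𝓘(ℝ, E) ∞ M] {m : ℕ}
  {α : M → Cov E}

/-- conversion of actions -/
def toVS (A : StrictAction α m) : VS (toForm α) m where
  act := A.act
  smooth := A.smooth
  zero := A.zero
  add := A.add
  strict := fun θ x u => by
    have h := congrFun (A.strict θ) x
    have h2 := congrArg (fun a : Cov E => ev a (u : E)) h
    exact h2

lemma gen_eq (A : StrictAction α m) (c : Fin m → ℝ) (x : M) : gen A c x = (toVS A).X c x := rfl

lemma firstIntegral_eq (A : StrictAction α m) (c : Fin m → ℝ) :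
    firstIntegral A c = (toVS A).H c := rfl

lemma od_eq (A : StrictAction α m) (x : M) : orbitDim E A.act x = (toVS A).od x := rfl

lemma wn_of (A : StrictAction α m) {x : M} (h : WeaklyNondegenerate A x) : (toVS A).WN x := h

lemma low_eq (A : StrictAction α m) (d : ℕ) (x₀ : M) :
    lowComponent A d x₀ = (toVS A).toVA.low d x₀ := rfl

/-- the parts of the proof -/
structure Parts : Prop where
  nrm : S_NRM.{u, v}
  cc : S_CC.{u, v}
  loc : S_LOC.{0, v}
  coc : S_COC.{0, v}
  lat : S_LAT.{0, v}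
  bas : S_BAS.{0, v}
  cov : S_COV.{0, v}
  pi : S_PI.{v}

theorem component (P : Parts.{u, v}) [T2Space M] (hα : IsContact α) (R : M → E) (hR : IsReeb α R)
    (A : StrictAction α m) (κ₀ : Fin m → ℝ) (hκ : ∀ x, gen A κ₀ x = R x)
    (d : ℕ) (x₀ : M) (hx₀ : orbitDim E A.act x₀ ≤ d)
    (hd3 : d ≤ 3 ∨ ∃ x, VirtuallySolvable (FundamentalGroup (lowComponent A d x₀) x))
    (hK : IsCompact (lowComponent A d x₀))
    (hnd : ∀ x ∈ lowComponent A d x₀, orbitDim E A.act x = d ∧ WeaklyNondegenerate A x) :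
    ∃ (c : ℝ → M) (T : ℝ), IsPeriodicOrbit R c T ∧ ∀ t, c t ∈ lowComponent A d x₀ := by
  have hR' : H826R2.Wein.IsReeb (toForm α) ((toVS A).X κ₀) := by
    have e : (toVS A).X κ₀ = fun x => (R x : TangentSpace 𝓘(ℝ, E) x) := by
      ext1 x; exact hκ x
    rw [e]
    exact hR.toWein
  obtain ⟨x, T, hT, hx, hxl⟩ := (toVS A).closed_in_low P.nrm P.cc P.loc P.coc P.lat P.bas
    P.cov P.pi hα.toWein κ₀ hR' d x₀ hx₀ hd3 hK (fun x hx => ⟨(hnd x hx).1, wn_of A (hnd x hx).2⟩)
  refine ⟨fun t => A.act (t • κ₀) x, T, ⟨hT, ?_, ?_⟩, ?_⟩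
  · have h1 := (toVS A).integral κ₀ x
    have e : (toVS A).X κ₀ = fun x => (R x : TangentSpace 𝓘(ℝ, E) x) := by
      ext1 x; exact hκ x
    rw [e] at h1
    exact h1
  · intro t
    show A.act ((t + T) • κ₀) x = A.act (t • κ₀) x
    rw [add_smul, A.add]
    exact congrArg (A.act (t • κ₀)) hx
  · intro t
    exact (toVS A).toVA.low_act hxl (t • κ₀)

theorem closed (P : Parts.{u, v}) [T2Space M] [CompactSpace M] [Nonempty M] (hα : IsContact α)
    (R : M → E) (hR : IsReeb α R)
    (A : StrictAction α m) (κ₀ : Fin m → ℝ) (hκ : ∀ x, gen A κ₀ x = R x)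
    (hm : m ≤ 4 ∨ ∃ x, orbitDim E A.act x ≤ 3)
    (hnd : ∀ x, (∀ y, orbitDim E A.act x ≤ orbitDim E A.act y) → WeaklyNondegenerate A x) :
    ∃ (c : ℝ → M) (T : ℝ), IsPeriodicOrbit R c T := by
  have hR' : H826R2.Wein.IsReeb (toForm α) ((toVS A).X κ₀) := by
    have e : (toVS A).X κ₀ = fun x => (R x : TangentSpace 𝓘(ℝ, E) x) := by
      ext1 x; exact hκ x
    rw [e]
    exact hR.toWein
  obtain ⟨z, hz⟩ : ∃ x, orbitDim E A.act x ≤ 3 := by
    rcases hm with hm | h
    · rcases Nat.lt_or_ge m 4 with h4 | h4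
      · obtain ⟨y⟩ : Nonempty M := inferInstance
        refine ⟨y, ?_⟩
        have h1 := LinearMap.finrank_range_add_finrank_ker ((toVS A).XL y)
        rw [Module.finrank_fin_fun] at h1
        have h2 : orbitDim E A.act y = Module.finrank ℝ (LinearMap.range ((toVS A).XL y)) := rfl
        omega
      · obtain ⟨x, hx⟩ := (toVS A).exists_small hα.toWein κ₀ hR' (by omega)
        refine ⟨x, ?_⟩
        have h2 : orbitDim E A.act x = (toVS A).od x := rfl
        omega
    · exact h
  -- a point of lowest orbit dimension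
  obtain ⟨x₀, hx₀⟩ : ∃ x₀ : M, ∀ y, orbitDim E A.act x₀ ≤ orbitDim E A.act y := by
    have h1 : (Set.range fun x : M => orbitDim E A.act x).Nonempty := range_nonempty _
    obtain ⟨x₀, hx₀⟩ := Nat.sInf_mem h1
    exact ⟨x₀, fun y => by
      have h2 := Nat.sInf_le (mem_range_self (f := fun x : M => orbitDim E A.act x) y)
      have h3 : orbitDim E A.act x₀ = sInf (range fun x : M => orbitDim E A.act x) := hx₀
      omega⟩
  set d := orbitDim E A.act x₀ with hd
  have hlow : ∀ x ∈ lowComponent A d x₀, orbitDim E A.act x = d := by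
    intro x hx
    have h1 : x ∈ {x | orbitDim E A.act x ≤ d} := connectedComponentIn_subset _ _ hx
    exact le_antisymm h1 (hx₀ x)
  have hclosed : IsClosed {x : M | orbitDim E A.act x ≤ d} := (toVS A).toVA.isClosed_od_le d
  have hK : IsCompact (lowComponent A d x₀) := by
    have h1 : IsClosed (lowComponent A d x₀) := by
      rw [← closure_subset_iff_isClosed]
      have h1 : closure (lowComponent A d x₀) ⊆ {x : M | orbitDim E A.act x ≤ d} :=
        hclosed.closure_subset_iff.2 (connectedComponentIn_subset _ _)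
      have h2 : x₀ ∈ {x : M | orbitDim E A.act x ≤ d} := le_refl d
      exact isPreconnected_connectedComponentIn.closure.subset_connectedComponentIn
        (subset_closure (mem_connectedComponentIn h2)) h1
    exact h1.isCompact
  obtain ⟨c, T, h, -⟩ := component P hα R hR A κ₀ hκ d x₀ le_rfl (Or.inl ((hx₀ z).trans hz)) hK
    (fun x hx => ⟨hlow x hx, hnd x (fun y => by rw [hlow x hx]; exact hx₀ y)⟩)
  exact ⟨c, T, h⟩

end Pool.Agent.J4H20.CI
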