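import Mathlib
import Pool.Agent.J4H20.CI.Final
import Pool.Agent.J4H57.CI.Nrm
import Pool.Agent.J4H75.CI.Coc
import Pool.Agent.J4H19.CI.Loc
import Pool.Agent.J4H19.CI.Bas
import Pool.Agent.J4H71.CI.Lat
import Pool.Agent.J4H42.CI.Cov
import Pool.Agent.J4H56.CI.Pi

/-! All the parts (by helpers 57, 75, 64, 19, 71, 42, 56). -/

namespace Pool.Agent.J4H20.CI

universe u v

theorem parts : Parts.{u, v} where
  nrm := Pool.Agent.J4H57.CI.t_NRM
  cc := Pool.Agent.J4H75.CI.t_CC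
  loc := Pool.Agent.J4H19.CI.t_LOC
  coc := Pool.Agent.J4H75.CI.t_COC
  lat := Pool.Agent.J4H71.CI.t_LAT
  bas := Pool.Agent.J4H19.CI.t_BAS
  cov := Pool.Agent.J4H42.CI.t_COV
  pi := Pool.Agent.J4H56.CI.t_PI

end Pool.Agent.J4H20.CI
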